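import Pool.Agent.NFB.LA

/-!
# The core: abelian normal subgroups on which an endomorphism is strongly contracting
-/

namespace NFB

open Subgroup

section

variable {Q : Type*} [Group Q] (θ : Q →* Q) {A : Type*} [AddCommGroup A] (ι : A → Q)
  (ρ : Q → A →ₗ[ℤ] A) (τ : A →ₗ[ℤ] A)

/-- The data of the core. -/
structure Dat : Prop where
  ι_add : ∀ a b, ι (a + b) = ι a * ι b
  ι_inj : Function.Injective ι
  ι_rho : ∀ q a, ι (ρ q a) = q⁻¹ * ι a * q
  ι_tau : ∀ a, ι (τ a) = θ (ι a)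
  back : ∀ q a, θ q = ι a → ∃ b, q = ι b
  surj : ∀ q, ∃ x a, q = θ x * ι a

variable {θ ι ρ τ}

namespace Dat

variable (h : Dat θ ι ρ τ)

include h

theorem ι_zero : ι 0 = 1 := by
  have h1 := h.ι_add 0 0
  rw [add_zero] at h1
  exact (left_eq_mul.1 h1)

theorem ι_neg (a : A) : ι (-a) = (ι a)⁻¹ := by
  rw [eq_inv_iff_mul_eq_one, ← h.ι_add, neg_add_cancel, h.ι_zero]

theorem ι_sub (a b : A) : ι (a - b) = ι a * (ι b)⁻¹ := by
  rw [sub_eq_add_neg, h.ι_add, h.ι_neg]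

theorem ι_pow (k : ℕ) (a : A) : ι ((τ ^ k) a) = θ^[k] (ι a) := by
  induction k generalizing a with
  | zero => rfl
  | succ k ih => rw [pow_succ, Module.End.mul_apply, ih, h.ι_tau, Function.iterate_succ_apply]

theorem back_pow (k : ℕ) (q : Q) (a : A) (hq : θ^[k] q = ι a) : ∃ b, q = ι b := by
  induction k generalizing q a with
  | zero => exact ⟨a, hq⟩
  | succ k ih =>
    rw [Function.iterate_succ_apply] at hq
    obtain ⟨b, hb⟩ := ih _ _ hq
    exact h.back _ _ hb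

theorem surj_pow (k : ℕ) (q : Q) : ∃ a x, q = θ^[k] x * ι a := by
  induction k generalizing q with
  | zero => exact ⟨0, q, by rw [h.ι_zero, mul_one]; rfl⟩
  | succ k ih =>
    obtain ⟨x, a, hx⟩ := h.surj q
    obtain ⟨b, y, hy⟩ := ih x
    refine ⟨τ b + a, y, ?_⟩
    rw [hx, hy, map_mul, h.ι_add, h.ι_tau, ← mul_assoc, Function.iterate_succ_apply']

theorem iter_mul (k : ℕ) (x y : Q) : θ^[k] (x * y) = θ^[k] x * θ^[k] y :=
  iterate_map_mul θ k x y

theorem iter_inv (k : ℕ) (x : Q) : θ^[k] x⁻¹ = (θ^[k] x)⁻¹ := iterate_map_inv θ k x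

theorem rho_iota (a b : A) : ρ (ι a) b = b := by
  apply h.ι_inj
  rw [h.ι_rho, ← h.ι_neg, ← h.ι_add, ← h.ι_add]
  congr 1
  abel

theorem rho_mul (q r : Q) (a : A) : ρ (q * r) a = ρ r (ρ q a) := by
  apply h.ι_inj
  rw [h.ι_rho, h.ι_rho, h.ι_rho]
  group

theorem rho_one (a : A) : ρ 1 a = a := by
  apply h.ι_inj
  rw [h.ι_rho]
  group

/-- The images of the powers of `τ` are invariant. -/
theorem rho_range (k : ℕ) (q : Q) (a : A) (ha : a ∈ LinearMap.range (τ ^ k)) :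
    ρ q a ∈ LinearMap.range (τ ^ k) := by
  obtain ⟨b, rfl⟩ := ha
  obtain ⟨c, x, hx⟩ := h.surj_pow k q
  refine ⟨ρ x b, ?_⟩
  have h1 : q = θ^[k] x * ι c := hx
  rw [h1, h.rho_mul, h.rho_iota]
  apply h.ι_inj
  rw [h.ι_pow, h.ι_rho, h.ι_rho, h.ι_pow, h.iter_mul, h.iter_mul, h.iter_inv]

end Dat

/-- The submodule of sequences. -/
def NN (τ : A →ₗ[ℤ] A) : Submodule ℤ (ℕ → A) where
  carrier := {v | ∀ k, v k ∈ LinearMap.range (τ ^ k)}
  add_mem' := fun {a b} ha hb k => Submodule.add_mem _ (ha k) (hb k)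
  zero_mem' := fun k => Submodule.zero_mem _
  smul_mem' := fun c {a} ha k => Submodule.smul_mem _ c (ha k)

/-- The shift. -/
def shift (τ : A →ₗ[ℤ] A) : (ℕ → A) →ₗ[ℤ] (ℕ → A) where
  toFun v := fun k => match k with
    | 0 => 0
    | (k + 1) => τ (v k)
  map_add' v w := by
    funext k
    cases k with
    | zero => exact (add_zero _).symm
    | succ k => exact map_add τ _ _
  map_smul' c v := by
    funext k
    cases k with
    | zero => exact (smul_zero c).symm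
    | succ k => exact map_smul τ c (v k)

theorem shift_mem (τ : A →ₗ[ℤ] A) : NN τ ≤ (NN τ).comap (shift τ) := by
  intro v hv k
  cases k with
  | zero => exact Submodule.zero_mem _
  | succ k =>
    obtain ⟨b, hb⟩ := hv k
    refine ⟨b, ?_⟩
    show (τ ^ (k + 1)) b = τ (v k)
    rw [pow_succ', Module.End.mul_apply, hb]

/-- The shift on the quotient. -/
def TP (τ : A →ₗ[ℤ] A) : ((ℕ → A) ⧸ NN τ) →ₗ[ℤ] ((ℕ → A) ⧸ NN τ) :=
  (NN τ).mapQ (NN τ) (shift τ) (shift_mem τ)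

theorem shift_pow (τ : A →ₗ[ℤ] A) (j : ℕ) (v : ℕ → A) (k : ℕ) (hk : k < j) :
    (shift τ ^ j) v k = 0 := by
  induction j generalizing k with
  | zero => exact absurd hk (Nat.not_lt_zero _)
  | succ j ih =>
    rw [pow_succ', Module.End.mul_apply]
    cases k with
    | zero => rfl
    | succ k =>
      show τ ((shift τ ^ j) v k) = 0
      rw [ih k (by omega), map_zero]

theorem TP_pow (τ : A →ₗ[ℤ] A) (j : ℕ) (v : ℕ → A) :
    (TP τ ^ j) ((NN τ).mkQ v) = (NN τ).mkQ ((shift τ ^ j) v) := by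
  induction j with
  | zero => rfl
  | succ j ih =>
    rw [pow_succ', Module.End.mul_apply, ih, pow_succ', Module.End.mul_apply]
    rfl

theorem TP_cap (τ : A →ₗ[ℤ] A) (z : (ℕ → A) ⧸ NN τ) (hz : ∀ j : ℕ, ∃ y, (TP τ ^ j) y = z) :
    z = 0 := by
  obtain ⟨v, rfl⟩ := (NN τ).mkQ_surjective z
  refine (Submodule.Quotient.mk_eq_zero _).2 ?_
  intro k
  obtain ⟨y, hy⟩ := hz (k + 1)
  obtain ⟨w, rfl⟩ := (NN τ).mkQ_surjective y
  rw [TP_pow] at hy
  have h1 : (shift τ ^ (k + 1)) w - v ∈ NN τ := (Submodule.Quotient.eq _).1 hy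
  have h2 := h1 k
  have h3 : ((shift τ ^ (k + 1)) w - v) k = - v k := by
    show (shift τ ^ (k + 1)) w k - v k = - v k
    rw [shift_pow τ (k + 1) w k (Nat.lt_succ_self k), zero_sub]
  rw [h3] at h2
  exact neg_mem_iff.1 h2

namespace Dat

variable (h : Dat θ ι ρ τ)

/-- the `k`-th coordinate of the cocycle, a representative -/
noncomputable def mm (k : ℕ) (q : Q) : A := (h.surj_pow k q).choose

theorem mm_spec (k : ℕ) (q : Q) : ∃ x, q = θ^[k] x * ι (h.mm k q) :=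
  (h.surj_pow k q).choose_spec

/-- The cocycle. -/
noncomputable def cc (q : Q) : (ℕ → A) ⧸ NN τ := (NN τ).mkQ (fun k => h.mm k q)

theorem cc_eq (q : Q) (v : ℕ → A) (hv : ∀ k, ∃ x, q = θ^[k] x * ι (v k)) :
    (NN τ).mkQ v = h.cc q := by
  refine (Submodule.Quotient.eq _).2 ?_
  intro k
  obtain ⟨x, hx⟩ := hv k
  obtain ⟨y, hy⟩ := h.mm_spec k q
  have h1 : θ^[k] (y⁻¹ * x) = ι (h.mm k q - v k) := by
    rw [h.ι_sub, h.iter_mul, h.iter_inv, inv_mul_eq_iff_eq_mul, ← mul_assoc, ← hy, eq_mul_inv_iff_mul_eq,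
      ← hx]
  obtain ⟨b, hb⟩ := h.back_pow k _ _ h1
  refine ⟨-b, ?_⟩
  show (τ ^ k) (-b) = v k - h.mm k q
  rw [map_neg]
  rw [hb, ← h.ι_pow] at h1
  rw [h.ι_inj h1]
  abel

/-- The action on the quotient. -/
noncomputable def RP (q : Q) : ((ℕ → A) ⧸ NN τ) →ₗ[ℤ] ((ℕ → A) ⧸ NN τ) :=
  (NN τ).mapQ (NN τ) ((ρ q).compLeft ℕ) (fun v hv k => h.rho_range k q (v k) (hv k))

theorem cc_mul (q r : Q) : h.cc (q * r) = h.RP r (h.cc q) + h.cc r := by
  have h1 : h.RP r (h.cc q) + h.cc r = (NN τ).mkQ (fun k => ρ r (h.mm k q) + h.mm k r) := rfl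
  rw [h1]
  symm
  refine h.cc_eq _ _ (fun k => ?_)
  obtain ⟨x, hx⟩ := h.mm_spec k q
  obtain ⟨y, hy⟩ := h.mm_spec k r
  refine ⟨x * y, ?_⟩
  have h2 : q * r = θ^[k] x * (ι (h.mm k q) * r) := by rw [← mul_assoc, ← hx]
  have h3 : ι (h.mm k q) * r = r * ι (ρ r (h.mm k q)) := by
    rw [h.ι_rho]
    group
  have h4 : r * ι (ρ r (h.mm k q)) = θ^[k] y * ι (ρ r (h.mm k q) + h.mm k r) := by
    rw [add_comm, h.ι_add, ← mul_assoc, ← hy]
  rw [h2, h3, h4, h.iter_mul, mul_assoc]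

theorem cc_theta (q : Q) : h.cc (θ q) = TP τ (h.cc q) := by
  symm
  refine h.cc_eq (θ q) (shift τ (fun k => h.mm k q)) (fun k => ?_)
  cases k with
  | zero =>
    refine ⟨θ q, ?_⟩
    show θ q = θ q * ι 0
    rw [h.ι_zero, mul_one]
  | succ k =>
    obtain ⟨x, hx⟩ := h.mm_spec k q
    refine ⟨x, ?_⟩
    show θ q = θ^[k + 1] x * ι (τ (h.mm k q))
    rw [h.ι_tau, Function.iterate_succ_apply', ← map_mul, ← hx]

theorem cc_iota (a : A) : h.cc (ι a) = (NN τ).mkQ (fun _ => a) := by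
  symm
  refine h.cc_eq _ _ (fun k => ⟨1, ?_⟩)
  rw [iterate_map_one, one_mul]

theorem RP_iota (a : A) (z : (ℕ → A) ⧸ NN τ) : h.RP (ι a) z = z := by
  obtain ⟨v, rfl⟩ := (NN τ).mkQ_surjective z
  show (NN τ).mkQ (fun k => ρ (ι a) (v k)) = (NN τ).mkQ v
  congr 1
  funext k
  exact h.rho_iota a (v k)

theorem RP_mul (q r : Q) (z : (ℕ → A) ⧸ NN τ) : h.RP (q * r) z = h.RP r (h.RP q z) := by
  obtain ⟨v, rfl⟩ := (NN τ).mkQ_surjective z
  show (NN τ).mkQ (fun k => ρ (q * r) (v k)) = (NN τ).mkQ (fun k => ρ r (ρ q (v k)))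
  congr 1
  funext k
  exact h.rho_mul q r (v k)

theorem cc_one : h.cc 1 = 0 := by
  have h1 := h.cc_iota 0
  rw [h.ι_zero] at h1
  rw [h1]
  exact map_zero _

theorem cc_inv (q : Q) : h.cc q⁻¹ = - h.RP q⁻¹ (h.cc q) := by
  have h1 := h.cc_mul q q⁻¹
  rw [mul_inv_cancel, h.cc_one] at h1
  exact eq_neg_of_add_eq_zero_right h1.symm

theorem cc_mul_iota (q : Q) (a : A) : h.cc (q * ι a) = h.cc q + h.cc (ι a) := by
  rw [h.cc_mul, h.RP_iota]

/-- zero cocycle value -/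
theorem cc_zero (q : Q) (hq : h.cc q = 0) (k : ℕ) : ∃ x, θ^[k] x = q := by
  have h1 : (fun k => h.mm k q) ∈ NN τ := (Submodule.Quotient.mk_eq_zero _).1 hq
  obtain ⟨b, hb⟩ := h1 k
  obtain ⟨x, hx⟩ := h.mm_spec k q
  refine ⟨x * ι b, ?_⟩
  have hb' : (τ ^ k) b = h.mm k q := hb
  rw [h.iter_mul, ← h.ι_pow, hb', ← hx]

/-- The set of values of the cocycle spans a finitely generated group. -/
theorem span_fg [Group.FG Q] [Module.Finite ℤ A] :
    (Submodule.span ℤ (Set.range h.cc)).FG := by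
  classical
  obtain ⟨S, hS⟩ := Group.fg_def.1 (inferInstance : Group.FG Q)
  have hEnd : Module.Finite ℤ (A →ₗ[ℤ] A) := by
    obtain ⟨B, hB⟩ := (Module.Finite.fg_top : (⊤ : Submodule ℤ A).FG)
    let F : (A →ₗ[ℤ] A) →ₗ[ℤ] (B → A) := LinearMap.pi (fun b => LinearMap.applyₗ (b : A))
    refine Module.Finite.of_injective F ?_
    intro f g hfg
    refine LinearMap.ext_on (s := (B : Set A)) hB ?_
    intro b hb
    exact congrFun hfg ⟨b, hb⟩
  let E : Q → (A →ₗ[ℤ] A) →ₗ[ℤ] ((ℕ → A) ⧸ NN τ) := fun g =>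
    (NN τ).mkQ.comp (LinearMap.pi (fun k => LinearMap.applyₗ (h.mm k g)))
  let W : Submodule ℤ ((ℕ → A) ⧸ NN τ) := ⨆ g ∈ S, LinearMap.range (E g)
  have hW : W.FG := Submodule.fg_biSup S _ (fun g _ => by
    rw [LinearMap.range_eq_map]
    exact Submodule.FG.map _ Module.Finite.fg_top)
  have hmem : ∀ g ∈ S, ∀ r, h.RP r (h.cc g) ∈ W := by
    intro g hg r
    have h1 : LinearMap.range (E g) ≤ W := le_biSup (fun g => LinearMap.range (E g)) hg
    exact h1 ⟨ρ r, rfl⟩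
  have hall : ∀ q : Q, ∀ r, h.RP r (h.cc q) ∈ W := by
    intro q
    have hq : q ∈ closure (S : Set Q) := by rw [hS]; trivial
    induction hq using closure_induction with
    | mem g hg => exact hmem g hg
    | one =>
      intro r
      rw [h.cc_one, map_zero]
      exact W.zero_mem
    | mul x y _ _ hx hy =>
      intro r
      rw [h.cc_mul, map_add, ← h.RP_mul]
      exact W.add_mem (hx _) (hy _)
    | inv x _ hx =>
      intro r
      rw [h.cc_inv, map_neg, ← h.RP_mul]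
      exact W.neg_mem (hx _)
  refine Submodule.FG.of_le hW ?_
  rw [Submodule.span_le]
  rintro _ ⟨q, rfl⟩
  have h2 := hall q (ι 0)
  rw [h.RP_iota] at h2
  exact h2

include h in
/-- **The core.** -/
theorem finiteIndex [Group.FG Q] [Module.Finite ℤ A]
    (H : Subgroup Q) (hH1 : ∀ a, ι a ∈ H) (hH2 : ∀ q, (∀ k, ∃ x, θ^[k] x = q) → q ∈ H) :
    H.FiniteIndex := by
  set L : Submodule ℤ ((ℕ → A) ⧸ NN τ) := Submodule.span ℤ (Set.range h.cc) with hL
  have hfin : Module.Finite ℤ L := Module.Finite.iff_fg.2 h.span_fg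
  have hcL : ∀ q, h.cc q ∈ L := fun q => Submodule.subset_span ⟨q, rfl⟩
  have hTL : ∀ z ∈ L, TP τ z ∈ L := by
    intro z hz
    induction hz using Submodule.span_induction with
    | mem x hx =>
      obtain ⟨q, rfl⟩ := hx
      rw [← h.cc_theta]
      exact hcL _
    | zero => rw [map_zero]; exact L.zero_mem
    | add x y _ _ hx hy => rw [map_add]; exact L.add_mem hx hy
    | smul c x _ hx => rw [map_smul]; exact L.smul_mem c hx
  let T : L →ₗ[ℤ] L := (TP τ).restrict hTL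
  let dg : A →ₗ[ℤ] ((ℕ → A) ⧸ NN τ) := (NN τ).mkQ.comp (LinearMap.pi (fun _ => LinearMap.id))
  have hdg : ∀ a, dg a = h.cc (ι a) := fun a => (h.cc_iota a).symm
  let D : Submodule ℤ L := (LinearMap.range dg).comap L.subtype
  have hTdg : ∀ a, TP τ (dg a) = dg (τ a) := by
    intro a
    rw [hdg, hdg, ← h.cc_theta, h.ι_tau]
  have hD : Finite (L ⧸ D) := by
    refine la_finite T D ?_ ?_ ?_
    · rintro x ⟨a, ha⟩
      refine ⟨τ a, ?_⟩
      rw [← hTdg, ha]
      rfl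
    · have h1 : ∀ z ∈ L, ∃ a, ∃ y ∈ L, z = dg a + TP τ y := by
        intro z hz
        induction hz using Submodule.span_induction with
        | mem x hx =>
          obtain ⟨q, rfl⟩ := hx
          obtain ⟨x, a, hx⟩ := h.surj q
          refine ⟨a, h.cc x, hcL x, ?_⟩
          rw [hx, h.cc_mul_iota, h.cc_theta, hdg, add_comm]
        | zero => exact ⟨0, 0, L.zero_mem, by rw [map_zero, map_zero, add_zero]⟩
        | add x y _ _ hx hy =>
          obtain ⟨a, u, hu, hau⟩ := hx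
          obtain ⟨b, v, hv, hbv⟩ := hy
          refine ⟨a + b, u + v, L.add_mem hu hv, ?_⟩
          rw [hau, hbv, map_add, map_add]
          abel
        | smul c x _ hx =>
          obtain ⟨a, u, hu, hau⟩ := hx
          refine ⟨c • a, c • u, L.smul_mem c hu, ?_⟩
          rw [hau, map_smul, map_smul, smul_add]
      rintro ⟨z, hz⟩
      obtain ⟨a, y, hy, hay⟩ := h1 z hz
      have ha : dg a ∈ L := by rw [hdg]; exact hcL _
      exact ⟨⟨dg a, ha⟩, ⟨a, rfl⟩, ⟨y, hy⟩, Subtype.ext hay⟩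
    · intro x hx
      apply Subtype.ext
      refine TP_cap τ x.1 (fun j => ?_)
      obtain ⟨y, hy⟩ := hx j
      refine ⟨y.1, ?_⟩
      rw [← hy]
      have h2 : ∀ (j : ℕ) (y : L), (TP τ ^ j) y.1 = ((T ^ j) y).1 := by
        intro j
        induction j with
        | zero => intro y; rfl
        | succ j ih =>
          intro y
          rw [pow_succ, pow_succ, Module.End.mul_apply, Module.End.mul_apply, ← ih]
          rfl
      exact h2 j y
  let f : Q → L ⧸ D := fun q => D.mkQ ⟨h.cc q⁻¹, hcL _⟩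
  have hf : ∀ q r, f q = f r → q⁻¹ * r ∈ H := by
    intro q r hqr
    have h1 : (⟨h.cc q⁻¹, hcL _⟩ : L) - ⟨h.cc r⁻¹, hcL _⟩ ∈ D := (Submodule.Quotient.eq _).1 hqr
    obtain ⟨a, ha⟩ := h1
    have h2 : dg a = h.cc q⁻¹ - h.cc r⁻¹ := ha
    have h3 : h.cc q⁻¹ = h.cc (r⁻¹ * ι a) := by
      rw [h.cc_mul_iota, ← hdg, h2]
      abel
    have h4 : h.cc (q⁻¹ * (r⁻¹ * ι a)⁻¹) = 0 := by
      rw [h.cc_mul, h3, h.cc_inv, add_neg_cancel]
    have h5 := hH2 _ (h.cc_zero _ h4)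
    have h6 : q⁻¹ * r = q⁻¹ * (r⁻¹ * ι a)⁻¹ * ι (ρ r a) := by
      rw [h.ι_rho]
      group
    rw [h6]
    exact H.mul_mem h5 (hH1 _)
  have hfq : Finite (Q ⧸ H) := by
    let g : Q ⧸ H → L ⧸ D := fun x => f x.out
    refine Finite.of_injective g ?_
    intro x y hxy
    have h1 := hf _ _ hxy
    have h2 : (x.out : Q ⧸ H) = (y.out : Q ⧸ H) := QuotientGroup.eq.2 h1
    rwa [QuotientGroup.out_eq', QuotientGroup.out_eq'] at h2
  exact Subgroup.finiteIndex_of_finite_quotient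

end Dat

end

end NFB
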