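import Pool.Agent.NFB.Core

/-!
# The core, in terms of subgroups
-/

namespace NFB

open Subgroup

theorem core {Q : Type*} [Group Q] [Group.FG Q] (θ : Q →* Q) (M : Subgroup Q) [hn : M.Normal]
    (hcomm : ∀ x ∈ M, ∀ y ∈ M, x * y = y * x) (hfg : M.FG) (hM : M.comap θ = M)
    (hs : ∀ q, ∃ y, ∃ m ∈ M, q = θ y * m) (H : Subgroup Q) (h1 : M ≤ H)
    (h2 : ∀ q, (∀ k : ℕ, ∃ x, θ^[k] x = q) → q ∈ H) : H.FiniteIndex := by
  letI : CommGroup M := { (inferInstance : Group M) with
    mul_comm := fun a b => Subtype.ext (hcomm a.1 a.2 b.1 b.2) }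
  have hMθ : ∀ x ∈ M, θ x ∈ M := by
    intro x hx
    rw [← hM] at hx
    exact hx
  let A := Additive M
  let ι : A → Q := fun a => (Additive.toMul a : M).1
  let c : Q → M →* M := fun q =>
    { toFun := fun m => ⟨q⁻¹ * m.1 * q, by
        have := hn.conj_mem m.1 m.2 q⁻¹
        rwa [inv_inv] at this⟩
      map_one' := Subtype.ext (by simp)
      map_mul' := fun a b => Subtype.ext (by
        show q⁻¹ * (a.1 * b.1) * q = (q⁻¹ * a.1 * q) * (q⁻¹ * b.1 * q)
        group) }
  let t : M →* M :=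
    { toFun := fun m => ⟨θ m.1, hMθ m.1 m.2⟩
      map_one' := Subtype.ext (map_one θ)
      map_mul' := fun a b => Subtype.ext (map_mul θ a.1 b.1) }
  let ρ : Q → A →ₗ[ℤ] A := fun q => (MonoidHom.toAdditive (c q)).toIntLinearMap
  let τ : A →ₗ[ℤ] A := (MonoidHom.toAdditive t).toIntLinearMap
  have hd : Dat θ ι ρ τ :=
    { ι_add := fun a b => rfl
      ι_inj := fun a b hab => Subtype.ext hab
      ι_rho := fun q a => rfl
      ι_tau := fun a => rfl
      back := by
        intro q a hq
        have h3 : q ∈ M := by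
          rw [← hM, Subgroup.mem_comap, hq]
          exact (Additive.toMul a : M).2
        exact ⟨Additive.ofMul ⟨q, h3⟩, rfl⟩
      surj := by
        intro q
        obtain ⟨y, m, hm, hq⟩ := hs q
        exact ⟨y, Additive.ofMul ⟨m, hm⟩, hq⟩ }
  haveI : Group.FG M := (Group.fg_iff_subgroup_fg M).2 hfg
  haveI : AddGroup.FG A := inferInstance
  haveI : Module.Finite ℤ A := Module.Finite.iff_addGroup_fg.2 inferInstance
  exact hd.finiteIndex H (fun a => h1 (Additive.toMul a : M).2) h2

end NFB
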