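import Pool.Agent.NFB.Main
import Pool.Agent.BCX.D3

/-!
# Three-dimensional fibres
-/

namespace NFB

open Subgroup EssMap

theorem fg_of_fi {G : Type*} [Group G] (A K : Subgroup G) (hAK : A ≤ K)
    (hfi : A.relIndex K ≠ 0) (hA : A.FG) : K.FG := by
  classical
  obtain ⟨T, hT⟩ := hA
  have h1 : (A.subgroupOf K).FiniteIndex := ⟨hfi⟩
  have h2 : Finite (K ⧸ A.subgroupOf K) := inferInstance
  have := Fintype.ofFinite (K ⧸ A.subgroupOf K)
  set R : Finset G := Finset.univ.image (fun q : K ⧸ A.subgroupOf K => ((q.out : K) : G)) with hR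
  refine ⟨T ∪ R, ?_⟩
  apply le_antisymm
  · rw [closure_le, Finset.coe_union, Set.union_subset_iff]
    constructor
    · intro x hx
      apply hAK
      rw [← hT]
      exact subset_closure hx
    · intro x hx
      obtain ⟨q, _, rfl⟩ := Finset.mem_image.1 hx
      exact (q.out : K).2
  · intro x hx
    set q : K ⧸ A.subgroupOf K := QuotientGroup.mk (⟨x, hx⟩ : K) with hq
    have h3 : (q.out)⁻¹ * (⟨x, hx⟩ : K) ∈ A.subgroupOf K := by
      rw [← QuotientGroup.eq, QuotientGroup.out_eq']
    have h4 : ((q.out : K) : G)⁻¹ * x ∈ A := h3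
    have h5 : x = ((q.out : K) : G) * (((q.out : K) : G)⁻¹ * x) := by group
    rw [h5]
    refine mul_mem (subset_closure ?_) ?_
    · rw [Finset.coe_union]
      exact Or.inr (Finset.mem_coe.2 (Finset.mem_image.2 ⟨q, Finset.mem_univ _, rfl⟩))
    · have h6 : closure (T : Set G) ≤ closure ((T ∪ R : Finset G) : Set G) :=
        closure_mono (by rw [Finset.coe_union]; exact Set.subset_union_left)
      have h7 : A ≤ closure (T : Set G) := hT.ge
      exact h6 (h7 h4)

theorem vpoly_of_nilp {Q : Type} [Group Q] (M : Subgroup Q) (hfg : Group.FG M) (N : Subgroup M)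
    (hN : N.FiniteIndex) (hn : Group.IsNilpotent N) : VPoly M := by
  have hNfg : Group.FG N := Subgroup.fg_of_index_ne_zero N
  obtain ⟨c, hc⟩ := Subgroup.nilpotent_iff_lowerCentralSeries.1 hn
  have hsub : ∀ K : Subgroup N, K.FG := nilp_sub_fg c N hc
  have hNs : Group.IsSolvable N := inferInstance
  refine ⟨⟨N.map M.subtype, map_subtype_le N, ?_, ?_⟩, ?_⟩
  · have h1 : (N.map M.subtype).relIndex M = N.index := by
      rw [relIndex, subgroupOf, comap_map_eq_self_of_injective M.subtype_injective]
    rw [h1]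
    exact hN.index_ne_zero
  · exact Group.isSolvable_of_surjective (f := M.subtype.subgroupMap N)
      (M.subtype.subgroupMap_surjective N)
  · intro K hK
    have h2 : ((N.comap (inclusion hK))).FiniteIndex := by
      refine ⟨?_⟩
      rw [index_comap]
      exact (inferInstance : (N.subgroupOf (inclusion hK).range).FiniteIndex).index_ne_zero
    have h3 : (N.comap (inclusion hK)).FG := by
      have h4 : ((N.comap (inclusion hK)).map (inclusion hK)).FG := by
        have h5 : ((N.comap (inclusion hK)).map (inclusion hK)) ≤ N := map_comap_le _ _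
        have h6 := hsub (((N.comap (inclusion hK)).map (inclusion hK)).subgroupOf N)
        have h7 := fg_map N.subtype h6
        rwa [subgroupOf_map_subtype, inf_eq_left.2 h5] at h7
      exact fg_of_map_inj (inclusion hK) (inclusion_injective hK) _ h4
    have h8 := fg_of_fi (N.comap (inclusion hK)) ⊤ le_top
      (by rw [relIndex_top_right]; exact h2.index_ne_zero) h3
    have h9 : Group.FG K := ⟨h8⟩
    exact (Group.fg_iff_subgroup_fg K).1 h9

theorem vpoly_of_dual {Q : Type} [Group Q] (θ : Q →* Q) (hinj : Function.Injective θ)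
    (hfin : θ.range.FiniteIndex) (hcap : ∀ q : Q, (∀ k : ℕ, q ∈ Set.range (θ^[k])) → q = 1)
    (M : Subgroup Q) (hM : M.comap θ = M) (hD : Dual 3 M) (hfp : Group.IsFinitelyPresented M) :
    VPoly M := by
  have hθ : ∀ x ∈ M, θ x ∈ M := fun x hx => by rw [← hM] at hx; exact hx
  let θM : M →* M := (θ.comp M.subtype).codRestrict M (fun x => hθ x.1 x.2)
  have hit : ∀ (k : ℕ) (x : M), ((θM^[k] x : M) : Q) = θ^[k] x := by
    intro k
    induction k with
    | zero => intro x; rfl
    | succ k ih =>
      intro x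
      rw [Function.iterate_succ_apply, Function.iterate_succ_apply, ih]
      rfl
  have hr : θM.range = θ.range.subgroupOf M := by
    ext x
    constructor
    · rintro ⟨y, rfl⟩
      exact ⟨y.1, rfl⟩
    · rintro ⟨y, hy⟩
      have h1 : θ y = x.1 := hy
      have h2 : y ∈ M := by
        rw [← hM, mem_comap, h1]
        exact x.2
      exact ⟨⟨y, h2⟩, Subtype.ext h1⟩
  have hfin' : θM.range.FiniteIndex := by
    rw [hr]
    infer_instance
  obtain ⟨N, hN, hn⟩ := BCX.dim3 hD hfp θM (fun x y hxy => Subtype.ext (hinj (congrArg Subtype.val hxy)))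
    hfin' (by
      intro q hq
      apply Subtype.ext
      refine hcap q.1 (fun k => ?_)
      obtain ⟨x, hx⟩ := hq k
      exact ⟨x.1, by rw [← hit, hx]⟩)
  exact vpoly_of_nilp M hD.fg N hN hn

end NFB
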