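import Mathlib

/-!
# Virtually polycyclic subgroups
-/

namespace NFB

/-- `M` is virtually polycyclic: it has a solvable subgroup of finite index and all its subgroups
are finitely generated. -/
def VPoly {Q : Type*} [Group Q] (M : Subgroup Q) : Prop :=
  (∃ S : Subgroup Q, S ≤ M ∧ S.relIndex M ≠ 0 ∧ Group.IsSolvable S) ∧ ∀ K : Subgroup Q, K ≤ M → K.FG

end NFB
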