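import Pool.Agent.NFB.CoreG
import Pool.Agent.EssMap.Asm

/-!
# Polycyclic fibres: the induction on the derived length (helper2)
-/

set_option autoImplicit false

universe u

open EssMap
open scoped commutatorElement

namespace NFB

theorem fi_of_map {Q X : Type*} [Group Q] [Finite X] (H : Subgroup Q) (f : Q → X)
    (h : ∀ q r, f q = f r → q * r⁻¹ ∈ H) : H.FiniteIndex := by
  have h1 : Finite (Q ⧸ H) := by
    refine Finite.of_injective (fun c : Q ⧸ H => f (Quotient.out c)⁻¹) ?_
    intro a b hab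
    have h2 := h _ _ hab
    rw [inv_inv] at h2
    rw [← QuotientGroup.out_eq' a, ← QuotientGroup.out_eq' b, QuotientGroup.eq]
    exact h2
  exact Subgroup.finiteIndex_of_finite_quotient

theorem fg_map {Q Q' : Type*} [Group Q] [Group Q'] (f : Q →* Q') {A : Subgroup Q} (h : A.FG) :
    (A.map f).FG := by
  classical
  obtain ⟨S, rfl⟩ := h
  exact ⟨S.image f, by rw [Finset.coe_image, MonoidHom.map_closure]⟩

theorem sub_fg {Q : Type*} [Group Q] {A B : Subgroup Q} (h : A.FG) (hAB : A ≤ B) :
    (A.subgroupOf B).FG := by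
  rw [← Group.fg_iff_subgroup_fg] at h ⊢
  exact Group.fg_of_surjective (f := (Subgroup.subgroupOfEquivOfLe hAB).symm.toMonoidHom)
    (Subgroup.subgroupOfEquivOfLe hAB).symm.surjective

theorem slender_quot {Q : Type*} [Group Q] {M B : Subgroup Q} [B.Normal]
    (hsl : ∀ H : Subgroup Q, H ≤ M → H.FG) (hBM : B ≤ M)
    (H : Subgroup (Q ⧸ B)) (hH : H ≤ M.map (QuotientGroup.mk' B)) : H.FG := by
  have h1 : H = (H.comap (QuotientGroup.mk' B)).map (QuotientGroup.mk' B) :=
    (Subgroup.map_comap_eq_self_of_surjective (QuotientGroup.mk'_surjective B) H).symm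
  have h2 : H.comap (QuotientGroup.mk' B) ≤ M := by
    intro x hx
    obtain ⟨y, hy, hyx⟩ := hH hx
    have h3 : y⁻¹ * x ∈ B := QuotientGroup.eq.1 hyx
    have := M.mul_mem hy (hBM h3)
    rwa [mul_inv_cancel_left] at this
  rw [h1]
  exact fg_map _ (hsl _ h2)

/-- if `N · M` is finitely generated, `M` normal and `N ∩ M` f.g., then `N` is f.g. -/
theorem fg_of_sup {Q : Type*} [Group Q] {N M : Subgroup Q} [M.Normal]
    (h : (N ⊔ M).FG) (h2 : (N ⊓ M).FG) : N.FG := by
  classical
  obtain ⟨S, hS⟩ := h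
  have hdec : ∀ s : Q, s ∈ N ⊔ M → ∃ n ∈ N, n⁻¹ * s ∈ M := by
    intro s hs
    obtain ⟨n, hn, m, hm, rfl⟩ := Subgroup.mem_sup_of_normal_right.1 hs
    exact ⟨n, hn, by rwa [inv_mul_cancel_left]⟩
  have hSs : ∀ s ∈ S, s ∈ N ⊔ M := by
    intro s hs
    rw [← hS]
    exact Subgroup.subset_closure hs
  choose! g hg hg2 using hdec
  set E : Subgroup Q := Subgroup.closure ((S.image g : Finset Q) : Set Q) with hE
  have hEN : E ≤ N := by
    rw [hE, Subgroup.closure_le]
    intro x hx
    obtain ⟨s, hs, rfl⟩ := Finset.mem_image.1 (Finset.mem_coe.1 hx)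
    exact hg s (hSs s hs)
  have h3 : N ⊔ M ≤ E ⊔ M := by
    rw [← hS, Subgroup.closure_le]
    intro s hs
    have h4 : g s ∈ E := by
      rw [hE]
      exact Subgroup.subset_closure (Finset.mem_coe.2 (Finset.mem_image_of_mem g hs))
    have h5 := Subgroup.mul_mem_sup h4 (hg2 s (hSs s hs))
    rwa [mul_inv_cancel_left] at h5
  have h6 : N = E ⊔ (N ⊓ M) := by
    apply le_antisymm
    · intro x hx
      obtain ⟨e, he, m, hm, rfl⟩ := Subgroup.mem_sup_of_normal_right.1 (h3 (Subgroup.mem_sup_left hx))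
      refine Subgroup.mul_mem_sup he ⟨?_, hm⟩
      have := N.mul_mem (N.inv_mem (hEN he)) hx
      rwa [inv_mul_cancel_left] at this
    · exact sup_le hEN inf_le_left
  rw [h6]
  exact Subgroup.FG.sup ⟨_, rfl⟩ h2

theorem fib_aux (d : ℕ) : ∀ (Q : Type u) [Group Q] [Group.FG Q] (θ : Q →* Q)
    (_ : Function.Injective θ) (M : Subgroup Q) [M.Normal] (_ : derivedSeries M d = ⊥)
    (_ : ∀ K : Subgroup Q, K ≤ M → K.FG) (_ : M.comap θ = M)
    (_ : ∀ q, ∃ y, ∃ m ∈ M, q = θ y * m) (H : Subgroup Q) (_ : M ≤ H)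
    (_ : ∀ q, (∀ k : ℕ, ∃ x, θ^[k] x = q) → q ∈ H), H.FiniteIndex := by
  induction d with
  | zero =>
    intro Q _ _ θ hinj M _ hd hsl hM hs H h1 h2
    have hMb : ∀ x ∈ M, x = 1 := by
      intro x hx
      have h3 : (⟨x, hx⟩ : M) ∈ derivedSeries M 0 := by
        rw [derivedSeries_zero]; exact Subgroup.mem_top _
      rw [hd, Subgroup.mem_bot] at h3
      exact congrArg Subtype.val h3
    exact core θ M (fun x hx y hy => by rw [hMb x hx, hMb y hy]) (hsl M le_rfl) hM hs H h1 h2
  | succ d ih =>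
    intro Q _ _ θ hinj M hMn hd hsl hM hs H h1 h2
    have hθM : ∀ x ∈ M, θ x ∈ M := by
      intro x hx
      rw [← hM] at hx
      exact hx
    -- the last derived term
    set B : Subgroup Q := (derivedSeries M d).map M.subtype with hB
    have hBn : B.Normal := inferInstance
    have hBM : B ≤ M := by
      rintro _ ⟨x, -, rfl⟩
      exact x.2
    have hBab : ∀ x ∈ B, ∀ y ∈ B, x * y = y * x := by
      rintro _ ⟨x, hx, rfl⟩ _ ⟨y, hy, rfl⟩
      have h3 : ⁅x, y⁆ ∈ derivedSeries M (d + 1) := by
        rw [derivedSeries_succ]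
        exact Subgroup.commutator_mem_commutator hx hy
      rw [hd, Subgroup.mem_bot, commutatorElement_eq_one_iff_mul_comm] at h3
      exact congrArg Subtype.val h3
    have hθB : ∀ x ∈ B, θ x ∈ B := by
      rintro _ ⟨x, hx, rfl⟩
      have h3 := map_derivedSeries_le_derivedSeries (rst θ M hθM) d
      exact ⟨rst θ M hθM x, h3 ⟨x, hx, rfl⟩, rfl⟩
    -- the saturation
    set B' : Subgroup Q := ⨆ k : ℕ, B.comap (itr θ k) with hB'
    have hmono : Monotone (fun k : ℕ => B.comap (itr θ k)) := by
      refine monotone_nat_of_le_succ (fun k x hx => ?_)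
      rw [Subgroup.mem_comap] at hx ⊢
      rw [itr_succ]
      exact hθB _ hx
    have hmem : ∀ x, x ∈ B' ↔ ∃ k, itr θ k x ∈ B := by
      intro x
      rw [hB', Subgroup.mem_iSup_of_directed hmono.directed_le]
      simp [Subgroup.mem_comap]
    have hitM : ∀ k x, itr θ k x ∈ M → x ∈ M := by
      intro k
      induction k with
      | zero => intro x hx; exact hx
      | succ k ihk =>
        intro x hx
        rw [itr_succ] at hx
        apply ihk
        rw [← hM]
        exact hx
    have hB'M : B' ≤ M := by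
      intro x hx
      obtain ⟨k, hk⟩ := (hmem x).1 hx
      exact hitM k x (hBM hk)
    have hB'n : B'.Normal := by
      constructor
      intro x hx g
      obtain ⟨k, hk⟩ := (hmem x).1 hx
      refine (hmem _).2 ⟨k, ?_⟩
      rw [map_mul, map_mul, map_inv]
      exact hBn.conj_mem _ hk _
    have hBB' : B ≤ B' := fun x hx => (hmem x).2 ⟨0, hx⟩
    have hB'ab : ∀ x ∈ B', ∀ y ∈ B', x * y = y * x := by
      intro x hx y hy
      obtain ⟨k, hk⟩ := (hmem x).1 hx
      obtain ⟨l, hl⟩ := (hmem y).1 hy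
      have h3 : itr θ (max k l) x ∈ B := hmono (le_max_left k l) hk
      have h4 : itr θ (max k l) y ∈ B := hmono (le_max_right k l) hl
      apply itr_inj hinj (max k l)
      rw [map_mul, map_mul]
      exact hBab _ h3 _ h4
    have hcB : B'.comap θ = B' := by
      ext x
      rw [Subgroup.mem_comap, hmem, hmem]
      constructor
      · rintro ⟨k, hk⟩
        exact ⟨k + 1, by rw [itr_succ']; exact hk⟩
      · rintro ⟨k, hk⟩
        refine ⟨k, ?_⟩
        rw [← itr_succ', itr_succ]
        exact hθB _ hk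
    have hθB' : ∀ x ∈ B', θ x ∈ B' := by
      intro x hx
      rw [← hcB] at hx
      exact hx
    -- the subgroup I₁
    set I : Subgroup Q := ⨅ k : ℕ, ((itr θ k).range ⊔ B') with hI
    have hImem : ∀ x, x ∈ I ↔ ∀ k, ∃ z, ∃ b ∈ B', x = itr θ k z * b := by
      intro x
      rw [hI, Subgroup.mem_iInf]
      refine forall_congr' fun k => ?_
      rw [Subgroup.mem_sup_of_normal_right]
      constructor
      · rintro ⟨_, ⟨z, rfl⟩, b, hb, h3⟩
        exact ⟨z, b, hb, h3.symm⟩
      · rintro ⟨z, b, hb, h3⟩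
        exact ⟨_, ⟨z, rfl⟩, b, hb, h3.symm⟩
    have hB'I : B' ≤ I := by
      intro x hx
      rw [hImem]
      intro k
      exact ⟨1, x, hx, by rw [map_one, one_mul]⟩
    have hθI : ∀ x ∈ I, θ x ∈ I := by
      intro x hx
      rw [hImem] at hx ⊢
      intro k
      obtain ⟨z, b, hb, h3⟩ := hx k
      refine ⟨θ z, θ b, hθB' b hb, ?_⟩
      rw [h3, map_mul, ← itr_succ, itr_succ']
    -- the quotient by `B'`
    let θb : Q ⧸ B' →* Q ⧸ B' := QuotientGroup.map B' B' θ hcB.ge
    have hθb : ∀ x : Q, θb (x : Q ⧸ B') = ((θ x : Q) : Q ⧸ B') := fun x => rfl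
    have hθbk : ∀ (k : ℕ) (x : Q), (θb^[k]) (x : Q ⧸ B') = ((itr θ k x : Q) : Q ⧸ B') := by
      intro k x
      induction k with
      | zero => rfl
      | succ k ihk => rw [Function.iterate_succ_apply', ihk, hθb, itr_succ]
    have hθbinj : Function.Injective θb := by
      rw [injective_iff_map_eq_one]
      intro x
      induction x using QuotientGroup.induction_on with
      | H x =>
        intro hx
        rw [hθb, QuotientGroup.eq_one_iff] at hx
        rw [QuotientGroup.eq_one_iff, ← hcB]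
        exact hx
    set Mb : Subgroup (Q ⧸ B') := M.map (QuotientGroup.mk' B') with hMb
    have hMbn : Mb.Normal := hMn.map _ (QuotientGroup.mk'_surjective B')
    have hMbm : ∀ x : Q, (x : Q ⧸ B') ∈ Mb ↔ x ∈ M := by
      intro x
      constructor
      · rintro ⟨y, hy, hyx⟩
        have h3 : y⁻¹ * x ∈ B' := QuotientGroup.eq.1 hyx
        have := M.mul_mem hy (hB'M h3)
        rwa [mul_inv_cancel_left] at this
      · intro hx
        exact ⟨x, hx, rfl⟩
    have hMbd : derivedSeries Mb d = ⊥ := by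
      rw [← map_derivedSeries_eq ((QuotientGroup.mk' B').subgroupMap_surjective M) d,
        eq_bot_iff]
      rintro _ ⟨x, hx, rfl⟩
      rw [Subgroup.mem_bot]
      apply Subtype.ext
      have h3 : (x : Q) ∈ B := ⟨x, hx, rfl⟩
      exact (QuotientGroup.eq_one_iff _).2 (hBB' h3)
    have hMbc : Mb.comap θb = Mb := by
      ext x
      induction x using QuotientGroup.induction_on with
      | H x =>
        rw [Subgroup.mem_comap, hθb, hMbm, hMbm]
        conv_rhs => rw [← hM]
        exact Iff.rfl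
    have hMbs : ∀ q, ∃ y, ∃ m ∈ Mb, q = θb y * m := by
      intro q
      induction q using QuotientGroup.induction_on with
      | H q =>
        obtain ⟨y, m, hm, h3⟩ := hs q
        exact ⟨(y : Q ⧸ B'), (m : Q ⧸ B'), (hMbm m).2 hm, by rw [hθb, h3]; rfl⟩
    have hIM : (I ⊔ M).FiniteIndex := by
      have h3 := ih (Q ⧸ B') θb hθbinj Mb hMbd (fun K hK => slender_quot hsl hB'M K hK) hMbc hMbs
        ((I ⊔ M).map (QuotientGroup.mk' B')) (Subgroup.map_mono le_sup_right) (by
          intro q
          induction q using QuotientGroup.induction_on with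
          | H q =>
            intro hq
            refine ⟨q, Subgroup.mem_sup_left ?_, rfl⟩
            rw [hImem]
            intro k
            obtain ⟨x, hx⟩ := hq k
            induction x using QuotientGroup.induction_on with
            | H z =>
              rw [hθbk, QuotientGroup.eq] at hx
              exact ⟨z, _, hx, by rw [mul_inv_cancel_left]⟩)
      constructor
      rw [← Subgroup.index_map_eq (f := QuotientGroup.mk' B') (I ⊔ M)
        (QuotientGroup.mk'_surjective B') (by
          rw [QuotientGroup.ker_mk']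
          exact hB'I.trans le_sup_left)]
      exact h3.index_ne_zero
    -- the group `I`
    have hIfg : Group.FG I := by
      rw [Group.fg_iff_subgroup_fg]
      refine fg_of_sup (M := M) ?_ (hsl _ inf_le_right)
      rw [← Group.fg_iff_subgroup_fg]
      infer_instance
    have hHI : (H.subgroupOf I).FiniteIndex := by
      refine core (rst θ I hθI) (B'.subgroupOf I) ?_ (sub_fg (hsl B' hB'M) hB'I) ?_ ?_
        (H.subgroupOf I) ?_ ?_
      · intro x hx y hy
        rw [Subgroup.mem_subgroupOf] at hx hy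
        exact Subtype.ext (hB'ab _ hx _ hy)
      · ext x
        rw [Subgroup.mem_comap, Subgroup.mem_subgroupOf, Subgroup.mem_subgroupOf, rst_coe]
        conv_rhs => rw [← hcB]
        exact Iff.rfl
      · intro q
        obtain ⟨z, b, hb, h3⟩ := (hImem _).1 q.2 1
        have hzI : z ∈ I := by
          rw [hImem]
          intro k
          obtain ⟨z', b', hb', h4⟩ := (hImem _).1 q.2 (k + 1)
          refine ⟨z', (itr θ k z')⁻¹ * z, ?_, by rw [mul_inv_cancel_left]⟩
          rw [← hcB, Subgroup.mem_comap, map_mul, map_inv, ← itr_succ]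
          have h5 : θ z = (q : Q) * b⁻¹ := by
            rw [h3]
            exact (mul_inv_cancel_right _ _).symm
          rw [h5, h4, mul_assoc, inv_mul_cancel_left]
          exact B'.mul_mem hb' (B'.inv_mem hb)
        refine ⟨⟨z, hzI⟩, ⟨b, hB'I hb⟩, ?_, ?_⟩
        · rw [Subgroup.mem_subgroupOf]
          exact hb
        · apply Subtype.ext
          rw [h3]
          rfl
      · intro x hx
        rw [Subgroup.mem_subgroupOf] at hx ⊢
        exact h1 (hB'M hx)
      · intro q hq
        rw [Subgroup.mem_subgroupOf]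
        apply h2
        intro k
        obtain ⟨x, hx⟩ := hq k
        refine ⟨x, ?_⟩
        rw [← hx, ← itr_eq_iterate, ← itr_eq_iterate, itr_rst]
    -- assembly
    have hHJ : (H.subgroupOf (I ⊔ M)).FiniteIndex := by
      have hfin : Finite (I ⧸ H.subgroupOf I) := Subgroup.finite_quotient_of_finiteIndex
      have hdec : ∀ q : ↥(I ⊔ M), ∃ x : I, ∃ m ∈ M, (x : Q) * m = q := by
        intro q
        obtain ⟨x, hx, m, hm, h3⟩ := Subgroup.mem_sup_of_normal_right.1 q.2
        exact ⟨⟨x, hx⟩, m, hm, h3⟩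
      choose f m hm hf using hdec
      refine fi_of_map _ (fun q => (((f q)⁻¹ : I) : I ⧸ H.subgroupOf I)) ?_
      intro q r hqr
      have h3 := QuotientGroup.eq.1 hqr
      rw [inv_inv, Subgroup.mem_subgroupOf] at h3
      rw [Subgroup.mem_subgroupOf]
      have h4 : ((q * r⁻¹ : ↥(I ⊔ M)) : Q)
          = ((f q : Q) * (m q * (m r)⁻¹) * (f q : Q)⁻¹) * ((f q * (f r)⁻¹ : I) : Q) := by
        push_cast
        rw [← hf q, ← hf r]
        group
      rw [h4]
      exact H.mul_mem (h1 (hMn.conj_mem _ (M.mul_mem (hm q) (M.inv_mem (hm r))) _)) h3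
    have h5 : (H ⊓ (I ⊔ M)).FiniteIndex := by
      constructor
      rw [← Subgroup.relIndex_mul_index (inf_le_right : H ⊓ (I ⊔ M) ≤ I ⊔ M),
        Subgroup.inf_relIndex_right]
      exact mul_ne_zero hHJ.index_ne_zero hIM.index_ne_zero
    exact Subgroup.finiteIndex_of_le (inf_le_left : H ⊓ (I ⊔ M) ≤ H)

/-- polycyclic fibres -/
theorem fib {Q : Type u} [Group Q] [Group.FG Q] (θ : Q →* Q) (hinj : Function.Injective θ)
    (M : Subgroup Q) [M.Normal] (hsol : Group.IsSolvable M) (hsl : ∀ K : Subgroup Q, K ≤ M → K.FG)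
    (hM : M.comap θ = M) (hs : ∀ q, ∃ y, ∃ m ∈ M, q = θ y * m) (H : Subgroup Q) (h1 : M ≤ H)
    (h2 : ∀ q, (∀ k : ℕ, ∃ x, θ^[k] x = q) → q ∈ H) : H.FiniteIndex := by
  obtain ⟨d, hd⟩ := hsol.solvable
  exact fib_aux d Q θ hinj M hd hsl hM hs H h1 h2

end NFB
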