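import Mathlib

/-!
# A linear algebra lemma on finitely generated abelian groups with an endomorphism
-/

namespace NFB

open Polynomial

theorem aeval_mkQ {L : Type*} [AddCommGroup L] (T : L →ₗ[ℤ] L) (D : Submodule ℤ L)
    (h : D ≤ D.comap T) (p : ℤ[X]) : ∀ x : L,
    D.mkQ (aeval T p x) = aeval (D.mapQ D T h) p (D.mkQ x) := by
  induction p using Polynomial.induction_on with
  | C a =>
    intro x
    simp
  | add p q hp hq =>
    intro x
    simp only [map_add, LinearMap.add_apply, hp, hq]
  | monomial n a ih =>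
    intro x
    have h1 := ih (T x)
    have h2 : ∀ (E : Type _) [AddCommGroup E] (S : E →ₗ[ℤ] E) (y : E),
        aeval S (C a * X ^ (n + 1)) y = aeval S (C a * X ^ n) (S y) := by
      intro E _ S y
      rw [pow_succ, ← mul_assoc, map_mul, Module.End.mul_apply, aeval_X]
    rw [h2, h2, h1]
    rfl

theorem exists_poly {L : Type*} [AddCommGroup L] [Module.Finite ℤ L] (T : L →ₗ[ℤ] L)
    (D : Submodule ℤ L) (hTD : ∀ x ∈ D, T x ∈ D) (hs : ∀ x, ∃ d ∈ D, ∃ y, x = d + T y) :
    ∃ R : ℤ[X], ∀ x, aeval T (1 + X * R) x ∈ D := by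
  have h : D ≤ D.comap T := fun x hx => hTD x hx
  set S := D.mapQ D T h with hS
  obtain ⟨r, hr1, hr2⟩ := Submodule.exists_sub_one_mem_and_smul_eq_zero_of_fg_of_le_smul
    (Ideal.span {(X : ℤ[X])}) (⊤ : Submodule ℤ[X] (Module.AEval' S)) Module.Finite.fg_top (by
      intro z _
      obtain ⟨w, rfl⟩ := (Module.AEval'.of S).surjective z
      obtain ⟨x, rfl⟩ := D.mkQ_surjective w
      obtain ⟨d, hd, y, hy⟩ := hs x
      have h1 : D.mkQ x = S (D.mkQ y) := by
        have h0 : D.mkQ d = 0 := (Submodule.Quotient.mk_eq_zero D).2 hd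
        rw [hy, map_add, h0, zero_add]
        rfl
      rw [h1, ← Module.AEval'.X_smul_of]
      exact Submodule.smul_mem_smul (Ideal.mem_span_singleton_self _) trivial)
  obtain ⟨R, hR⟩ := Ideal.mem_span_singleton.1 hr1
  refine ⟨R, fun x => ?_⟩
  have h2 : 1 + X * R = r := by
    rw [← hR]
    ring
  have h3 : aeval S r (D.mkQ x) = 0 := by
    have h4 := hr2 (Module.AEval'.of S (D.mkQ x)) trivial
    have h5 : Module.AEval'.of S (aeval S r (D.mkQ x)) = 0 := by
      rw [← h4]
      rfl
    exact (LinearEquiv.map_eq_zero_iff _).1 h5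
  rw [h2]
  have h6 := aeval_mkQ T D h r x
  rw [← hS, h3] at h6
  exact (Submodule.Quotient.mk_eq_zero D).1 h6

theorem finite_quot_of_inj {L : Type*} [AddCommGroup L] [Module.Finite ℤ L] (E : L →ₗ[ℤ] L)
    (hE : Function.Injective E) : Finite (L ⧸ LinearMap.range E) := by
  have h1 := Submodule.finrank_quotient_add_finrank (LinearMap.range E)
  rw [LinearMap.finrank_range_of_inj hE] at h1
  have h2 : Module.finrank ℤ (L ⧸ LinearMap.range E) = 0 := by omega
  exact Module.finite_of_fg_torsion _ (Module.finrank_eq_zero_iff_isTorsion.1 h2)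

theorem la_finite {L : Type*} [AddCommGroup L] [Module.Finite ℤ L] (T : L →ₗ[ℤ] L)
    (D : Submodule ℤ L) (hTD : ∀ x ∈ D, T x ∈ D) (hs : ∀ x, ∃ d ∈ D, ∃ y, x = d + T y)
    (hinf : ∀ x, (∀ j : ℕ, ∃ y, (T ^ j) y = x) → x = 0) : Finite (L ⧸ D) := by
  obtain ⟨R, hR⟩ := exists_poly T D hTD hs
  set E : L →ₗ[ℤ] L := aeval T (1 + X * R) with hE
  have hinj : ∀ x, E x = 0 → x = 0 := by
    intro x hx
    refine hinf x ?_
    have h1 : ∀ y, E y = 0 → ∃ z, E z = 0 ∧ T z = y := by
      intro y hy
      refine ⟨- aeval T R y, ?_, ?_⟩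
      · have h2 : E (aeval T R y) = aeval T R (E y) := by
          rw [hE, ← Module.End.mul_apply, ← Module.End.mul_apply, ← map_mul, ← map_mul, mul_comm]
        rw [map_neg, h2, hy, map_zero, neg_zero]
      · have h3 : y + T (aeval T R y) = 0 := by
          have h4 : E y = y + T (aeval T R y) := by
            rw [hE, map_add, LinearMap.add_apply, map_one, map_mul, Module.End.mul_apply, aeval_X]
            rfl
          rw [← h4, hy]
        rw [map_neg]
        exact (eq_neg_of_add_eq_zero_left h3).symm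
    have h5 : ∀ j : ℕ, ∃ y, E y = 0 ∧ (T ^ j) y = x := by
      intro j
      induction j with
      | zero => exact ⟨x, hx, rfl⟩
      | succ j ih =>
        obtain ⟨y, hy, hy2⟩ := ih
        obtain ⟨z, hz, hz2⟩ := h1 y hy
        refine ⟨z, hz, ?_⟩
        rw [pow_succ, Module.End.mul_apply, hz2, hy2]
    intro j
    obtain ⟨y, -, hy⟩ := h5 j
    exact ⟨y, hy⟩
  have hker : Function.Injective E := (injective_iff_map_eq_zero E).2 hinj
  have hfin : Finite (L ⧸ LinearMap.range E) := finite_quot_of_inj E hker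
  have hle : LinearMap.range E ≤ D := by
    rintro _ ⟨x, rfl⟩
    exact hR x
  exact Finite.of_surjective (Submodule.factor hle) (Submodule.factor_surjective hle)

end NFB
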