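import Pool.Agent.NFB.Vp1

/-!
# Finite sets closed under conjugation (helper2)
-/

set_option autoImplicit false

open EssMap

namespace NFB

/-- ROW VCE -/
theorem VP.closure {G : Type*} [Group G] (Y : Set G) (hY : Y.Finite)
    (hc : ∀ g : G, ∀ y ∈ Y, g * y * g⁻¹ ∈ Y) : VP (Subgroup.closure Y) := by
  classical
  have hYf : Finite Y := hY
  set H : Subgroup G := Subgroup.closure Y with hH
  have hfg : Group.FG H := by
    rw [Group.fg_iff_subgroup_fg]
    exact ⟨hY.toFinset, by rw [Set.Finite.coe_toFinset]⟩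
  -- the centre has finite index
  have hcen : (Subgroup.center H).FiniteIndex := by
    refine fi_of_map (X := Y → Y) (Subgroup.center H)
      (fun x y => ⟨(x : G)⁻¹ * y * (x : G), by
        have := hc ((x : G)⁻¹) y y.2
        rwa [inv_inv] at this⟩) ?_
    intro q r hqr
    have h1 : ∀ y ∈ Y, ((q * r⁻¹ : H) : G) * y = y * ((q * r⁻¹ : H) : G) := by
      intro y hy
      have h2 : (q : G)⁻¹ * y * (q : G) = (r : G)⁻¹ * y * (r : G) :=
        congrArg Subtype.val (congrFun hqr ⟨y, hy⟩)
      push_cast
      calc (q : G) * (r : G)⁻¹ * y = (q : G) * ((r : G)⁻¹ * y * (r : G)) * (r : G)⁻¹ := by group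
        _ = (q : G) * ((q : G)⁻¹ * y * (q : G)) * (r : G)⁻¹ := by rw [h2]
        _ = y * ((q : G) * (r : G)⁻¹) := by group
    have h3 : H ≤ Subgroup.centralizer {((q * r⁻¹ : H) : G)} := by
      refine (Subgroup.closure_le _).2 ?_
      intro y hy
      rw [SetLike.mem_coe, Subgroup.mem_centralizer_iff]
      rintro _ rfl
      exact h1 y hy
    rw [Subgroup.mem_center_iff]
    intro g
    apply Subtype.ext
    have h4 := Subgroup.mem_centralizer_iff.1 (h3 g.2) _ rfl
    exact h4.symm
  have hcfg : (Subgroup.center H).FG := by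
    rw [← Group.fg_iff_subgroup_fg]
    infer_instance
  refine ⟨⟨Subgroup.center H, hcen, ?_⟩, fun K => ?_⟩
  · refine Group.isSolvable_of_comm (fun a b => Subtype.ext ?_)
    exact (Subgroup.mem_center_iff.1 b.2 a)
  · refine fg_of_extension (Subgroup.center H)
      (fun L hL => central_fg (Subgroup.center H) le_rfl hcfg L hL) (fun L => ?_) K
    have hfin : Finite (H ⧸ Subgroup.center H) := Subgroup.finite_quotient_of_finiteIndex
    rw [← Group.fg_iff_subgroup_fg]
    infer_instance

end NFB
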