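import Pool.Agent.NFB.Vsu
import Pool.Agent.NFB.Vce

/-!
# The largest normal virtually polycyclic subgroup is invariant
-/

set_option autoImplicit false

open EssMap

namespace NFB

/-- a subgroup whose image in `Q / A` and intersection with `A` are virtually polycyclic -/
theorem VPoly.ext' {Q : Type*} [Group Q] (A H : Subgroup Q) [A.Normal] (h1 : VPoly A)
    (h2 : VPoly (H.map (QuotientGroup.mk' A))) : VPoly H := by
  have h3 : VP (A.subgroupOf H) := by
    refine VP.of_injective (H.subtype.subgroupComap A) ?_ ((vpoly_iff A).1 h1)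
    intro x y hxy
    have h2 := congrArg (fun z : A => (z : Q)) hxy
    exact Subtype.ext (Subtype.ext h2)
  have h4 : VP (H ⧸ A.subgroupOf H) := by
    let f : H →* H.map (QuotientGroup.mk' A) := (QuotientGroup.mk' A).subgroupMap H
    have hf : f.ker = A.subgroupOf H := by
      ext x
      rw [MonoidHom.mem_ker, Subgroup.mem_subgroupOf]
      constructor
      · intro h
        have h5 : ((x : Q) : Q ⧸ A) = 1 := congrArg Subtype.val h
        exact (QuotientGroup.eq_one_iff _).1 h5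
      · intro h
        exact Subtype.ext ((QuotientGroup.eq_one_iff _).2 h)
    refine VP.of_injective (QuotientGroup.lift (A.subgroupOf H) f (le_of_eq hf.symm)) ?_
      ((vpoly_iff _).1 h2)
    rw [← MonoidHom.ker_eq_bot_iff, eq_bot_iff]
    intro x hx
    obtain ⟨y, rfl⟩ := QuotientGroup.mk_surjective x
    have h5 : f y = 1 := hx
    rw [← MonoidHom.mem_ker, hf] at h5
    exact Subgroup.mem_bot.2 ((QuotientGroup.eq_one_iff y).2 h5)
  exact (vpoly_iff H).2 (VP.ext _ h3 h4)

/-- finitely many conjugates of a virtually polycyclic subgroup lie in a normal one -/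
theorem normal_closure_vpoly {Q ι : Type*} [Group Q] [Finite ι] (K : ι → Subgroup Q)
    (hK : ∀ i, VPoly (K i)) (hc : ∀ (g : Q) (i : ι), ∃ j, (K i).map (MulAut.conj g).toMonoidHom ≤ K j)
    (N : Subgroup Q) [N.Normal] [N.FiniteIndex]
    (hN : ∀ g ∈ N, ∀ i, (K i).map (MulAut.conj g).toMonoidHom ≤ K i) :
    ∃ H : Subgroup Q, H.Normal ∧ VPoly H ∧ ∀ i, K i ≤ H := by
  classical
  -- the intersections with `N`
  have hVP : VPoly (⨆ i, K i ⊓ N) := by
    have h1 : (⨆ i, K i ⊓ N) = (⨆ i, (K i).subgroupOf N).map N.subtype := by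
      rw [Subgroup.map_iSup]
      refine iSup_congr fun i => ?_
      rw [Subgroup.subgroupOf_map_subtype]
    rw [h1]
    refine VPoly.map ((vpoly_iff _).2 (VP.iSup _ (fun i => ⟨?_⟩) (fun i => ?_))) _
    · intro x hx g
      exact hN g g.2 i ⟨x, hx, rfl⟩
    · exact (vpoly_iff _).1 ((hK i).comap N.subtype N.subtype_injective)
  obtain ⟨A, hA⟩ : ∃ A : Subgroup Q, A = ⨆ i, K i ⊓ N := ⟨_, rfl⟩
  rw [← hA] at hVP
  have hconj : ∀ (g : Q) (f : ι → Subgroup Q),
      (∀ i, ∃ j, (f i).map (MulAut.conj g).toMonoidHom ≤ f j) →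
      (⨆ i, f i).map (MulAut.conj g).toMonoidHom ≤ ⨆ i, f i := by
    intro g f hf
    rw [Subgroup.map_iSup]
    refine iSup_le fun i => ?_
    obtain ⟨j, hj⟩ := hf i
    exact hj.trans (le_iSup f j)
  have hAn : A.Normal := by
    refine ⟨fun x hx g => ?_⟩
    have h1 := hconj g (fun i => K i ⊓ N) (fun i => by
      obtain ⟨j, hj⟩ := hc g i
      refine ⟨j, ?_⟩
      rintro _ ⟨y, ⟨hy1, hy2⟩, rfl⟩
      exact ⟨hj ⟨y, hy1, rfl⟩, Subgroup.Normal.conj_mem inferInstance y hy2 g⟩)
    rw [← hA] at h1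
    exact h1 ⟨x, hx, rfl⟩
  have hKA : ∀ i, K i ⊓ N ≤ A := fun i => by
    rw [hA]
    exact le_iSup (fun i => K i ⊓ N) i
  -- the finite set
  let Y : Set (Q ⧸ A) := ⋃ i, ((K i).map (QuotientGroup.mk' A) : Set (Q ⧸ A))
  have hYf : Y.Finite := by
    refine Set.finite_iUnion fun i => ?_
    have h1 : Finite ((K i).map (QuotientGroup.mk' A)) := by
      have h2 : Finite (Q ⧸ N) := Subgroup.finite_quotient_of_finiteIndex
      have h3 : ∀ z : (K i).map (QuotientGroup.mk' A), ∃ x, x ∈ K i ∧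
          QuotientGroup.mk' A x = z := fun z => z.2
      choose g hg1 hg2 using h3
      refine Finite.of_injective (fun z => (g z : Q ⧸ N)) ?_
      intro z w h
      have h4 : (g z)⁻¹ * g w ∈ N := QuotientGroup.eq.1 h
      have h5 : (g z)⁻¹ * g w ∈ A := hKA i ⟨(K i).mul_mem ((K i).inv_mem (hg1 z)) (hg1 w), h4⟩
      apply Subtype.ext
      rw [← hg2 z, ← hg2 w]
      exact QuotientGroup.eq.2 h5
    exact Set.toFinite _
  have hYc : ∀ g : Q ⧸ A, ∀ y ∈ Y, g * y * g⁻¹ ∈ Y := by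
    intro g y hy
    obtain ⟨i, hi⟩ := Set.mem_iUnion.1 hy
    obtain ⟨x, hx, rfl⟩ := hi
    obtain ⟨q, rfl⟩ := QuotientGroup.mk_surjective g
    obtain ⟨j, hj⟩ := hc q i
    refine Set.mem_iUnion.2 ⟨j, q * x * q⁻¹, hj ⟨x, hx, rfl⟩, rfl⟩
  have hY := VP.closure Y hYf hYc
  refine ⟨(Subgroup.closure Y).comap (QuotientGroup.mk' A), ?_, ?_, ?_⟩
  · have h1 : (Subgroup.closure Y).Normal := by
      refine ⟨fun x hx g => ?_⟩
      have h2 : (Subgroup.closure Y).map (MulAut.conj g).toMonoidHom ≤ Subgroup.closure Y := by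
        rw [MonoidHom.map_closure, Subgroup.closure_le]
        rintro _ ⟨y, hy, rfl⟩
        exact Subgroup.subset_closure (hYc g y hy)
      exact h2 ⟨x, hx, rfl⟩
    exact h1.comap _
  · apply VPoly.ext' A _ hVP
    rw [Subgroup.map_comap_eq_self_of_surjective (QuotientGroup.mk'_surjective A)]
    exact (vpoly_iff _).2 hY
  · intro i x hx
    exact Subgroup.subset_closure (Set.mem_iUnion.2 ⟨i, x, hx, rfl⟩)

/-- the largest normal virtually polycyclic subgroup is mapped into itself, and contains all that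
is mapped into it -/
theorem comap_eq_of_max {Q : Type*} [Group Q] (θ : Q →* Q) (hinj : Function.Injective θ)
    (hfin : θ.range.FiniteIndex) (M : Subgroup Q) [M.Normal] (hM : VPoly M)
    (hmax : ∀ N : Subgroup Q, N.Normal → VPoly N → N ≤ M) : M.comap θ = M := by
  apply le_antisymm
  · exact hmax _ inferInstance (hM.comap θ hinj)
  · have hfinQ : Finite (Q ⧸ θ.range) := Subgroup.finite_quotient_of_finiteIndex
    let K : Q ⧸ θ.range → Subgroup Q := fun c =>
      (M.map θ).map (MulAut.conj (Quotient.out c)).toMonoidHom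
    have key : ∀ (g : Q) (c d : Q ⧸ θ.range), (Quotient.out d)⁻¹ * (g * Quotient.out c) ∈ θ.range →
        (K c).map (MulAut.conj g).toMonoidHom ≤ K d := by
      rintro g c d ⟨y, hy⟩
      rintro _ ⟨_, ⟨_, ⟨m, hm, rfl⟩, rfl⟩, rfl⟩
      refine ⟨θ (y * m * y⁻¹), ⟨y * m * y⁻¹, Subgroup.Normal.conj_mem inferInstance m hm y, rfl⟩, ?_⟩
      show Quotient.out d * θ (y * m * y⁻¹) * (Quotient.out d)⁻¹
        = g * (Quotient.out c * θ m * (Quotient.out c)⁻¹) * g⁻¹
      rw [map_mul, map_mul, map_inv, hy]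
      group
    obtain ⟨H, hHn, hHV, hH⟩ := normal_closure_vpoly K (fun c => (hM.map θ).map _)
      (fun g c => ⟨((g * Quotient.out c : Q) : Q ⧸ θ.range), key g c _ (by
        rw [← QuotientGroup.eq, QuotientGroup.out_eq'])⟩)
      θ.range.normalCore
      (fun g hg c => key g c c (by
        have h1 : (Quotient.out c)⁻¹ * g * ((Quotient.out c)⁻¹)⁻¹ ∈ θ.range.normalCore :=
          Subgroup.Normal.conj_mem inferInstance g hg _
        rw [inv_inv, mul_assoc] at h1
        exact Subgroup.normalCore_le _ h1))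
    intro x hx
    have h1 := hH ((1 : Q) : Q ⧸ θ.range) ⟨θ x, ⟨x, hx, rfl⟩, rfl⟩
    have h2 := hmax H hHn hHV h1
    have h3 := Subgroup.Normal.conj_mem (inferInstance : M.Normal) _ h2
      (Quotient.out ((1 : Q) : Q ⧸ θ.range))⁻¹
    have h4 : (Quotient.out ((1 : Q) : Q ⧸ θ.range))⁻¹ *
        ((MulAut.conj (Quotient.out ((1 : Q) : Q ⧸ θ.range))).toMonoidHom (θ x)) *
        ((Quotient.out ((1 : Q) : Q ⧸ θ.range))⁻¹)⁻¹ = θ x := by
      show (Quotient.out ((1 : Q) : Q ⧸ θ.range))⁻¹ *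
        (Quotient.out ((1 : Q) : Q ⧸ θ.range) * θ x * (Quotient.out ((1 : Q) : Q ⧸ θ.range))⁻¹) *
        ((Quotient.out ((1 : Q) : Q ⧸ θ.range))⁻¹)⁻¹ = θ x
      group
    rw [h4] at h3
    exact h3

end NFB
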