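import Pool.Agent.NFB.Rform
import Pool.Agent.NFB.Max

/-!
# The final statement
-/

namespace NFB

open Subgroup EssMap

theorem last1 {Q : Type} [Group Q] (φ : Q →* Q) (hinj : Function.Injective φ)
    (hfin : φ.range.FiniteIndex)
    (hcap : ∀ q : Q, (∀ k : ℕ, q ∈ Set.range (φ^[k])) → q = 1)
    (M : Subgroup Q) [M.Normal]
    (hM : (M.comap φ = M ∧ (VPoly M ∨ (Dual 3 M ∧ Group.IsFinitelyPresented M))) ∨
      (VPoly M ∧ ∀ N : Subgroup Q, N.Normal → VPoly N → N ≤ M)) :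
    M.comap φ = M ∧ VPoly M := by
  rcases hM with ⟨h1, h2 | ⟨h2, h3⟩⟩ | ⟨h1, h2⟩
  · exact ⟨h1, h2⟩
  · exact ⟨h1, vpoly_of_dual φ hinj hfin hcap M h1 h2 h3⟩
  · exact ⟨comap_eq_of_max φ hinj hfin M h1 h2, h1⟩

theorem last2 {Q : Type} [Group Q] (φ : Q →* Q) (hinj : Function.Injective φ)
    (hfin : φ.range.FiniteIndex)
    (hcap : ∀ q : Q, (∀ k : ℕ, q ∈ Set.range (φ^[k])) → q = 1)
    (M : Subgroup Q) [M.Normal]
    (hM : (M.comap φ = M ∧ (VPoly M ∨ (Dual 3 M ∧ Group.IsFinitelyPresented M))) ∨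
      (VPoly M ∧ ∀ N : Subgroup Q, N.Normal → VPoly N → N ≤ M))
    (hfg : Group.FG Q)
    (hco : ∀ ψ : Q ⧸ M →* Q ⧸ M, Function.Injective ψ → ψ.range.FiniteIndex →
      Function.Surjective ψ) :
    M.FiniteIndex ∧ VPoly (⊤ : Subgroup Q) := by
  obtain ⟨h1, h2⟩ := last1 φ hinj hfin hcap M hM
  set ψ : Q ⧸ M →* Q ⧸ M := QuotientGroup.map M M φ h1.ge with hψ
  have h3 : Function.Injective ψ := by
    rw [← MonoidHom.ker_eq_bot_iff, eq_bot_iff]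
    intro x hx
    obtain ⟨y, rfl⟩ := QuotientGroup.mk_surjective x
    have h4 : ((φ y : Q) : Q ⧸ M) = 1 := hx
    have h5 : φ y ∈ M := (QuotientGroup.eq_one_iff _).1 h4
    have h6 : y ∈ M := by
      rw [← h1]
      exact h5
    exact Subgroup.mem_bot.2 ((QuotientGroup.eq_one_iff y).2 h6)
  have h7 : ψ.range = φ.range.map (QuotientGroup.mk' M) := by
    ext x
    constructor
    · rintro ⟨y, rfl⟩
      obtain ⟨z, rfl⟩ := QuotientGroup.mk_surjective y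
      exact ⟨φ z, ⟨z, rfl⟩, rfl⟩
    · rintro ⟨_, ⟨z, rfl⟩, rfl⟩
      exact ⟨(z : Q ⧸ M), rfl⟩
  have h8 : ψ.range.FiniteIndex := by
    rw [h7]
    refine ⟨?_⟩
    have h9 : (φ.range.map (QuotientGroup.mk' M)).index ∣ φ.range.index :=
      index_map_dvd _ (QuotientGroup.mk'_surjective M)
    intro h
    rw [h, zero_dvd_iff] at h9
    exact hfin.index_ne_zero h9
  have h10 := hco ψ h3 h8
  have h11 : (⊤ : Subgroup Q).map φ ⊔ M = ⊤ := by
    rw [eq_top_iff]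
    intro q _
    obtain ⟨x, hx⟩ := h10 (q : Q ⧸ M)
    obtain ⟨y, rfl⟩ := QuotientGroup.mk_surjective x
    have h12 : ((φ y : Q) : Q ⧸ M) = (q : Q ⧸ M) := hx
    have h13 : (φ y)⁻¹ * q ∈ M := QuotientGroup.eq.1 h12
    have h14 : q = φ y * ((φ y)⁻¹ * q) := by group
    rw [h14]
    exact mul_mem_sup ⟨y, trivial, rfl⟩ h13
  obtain ⟨h15, h16⟩ := rform φ hinj hcap M h2 h1 ⊤ hfg.1 le_top h11
  rw [relIndex_top_right] at h15
  exact ⟨⟨h15⟩, h16⟩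

end NFB
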