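import Pool.Agent.NFB.Virt
import Pool.Agent.NFB.Defs

/-!
# Finitely generated invariant subgroups of the quotient by a virtually polycyclic subgroup
-/

namespace NFB

open Subgroup

/-- The intersection of the images of the iterates of `θ`. -/
def stab {Q : Type*} [Group Q] (θ : Q →* Q) : Subgroup Q where
  carrier := {q | ∀ k : ℕ, ∃ x, θ^[k] x = q}
  mul_mem' := by
    intro a b ha hb k
    obtain ⟨x, hx⟩ := ha k
    obtain ⟨y, hy⟩ := hb k
    exact ⟨x * y, by rw [iterate_map_mul, hx, hy]⟩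
  one_mem' := fun k => ⟨1, iterate_map_one θ k⟩
  inv_mem' := by
    intro a ha k
    obtain ⟨x, hx⟩ := ha k
    exact ⟨x⁻¹, by rw [iterate_map_inv, hx]⟩

theorem mem_stab {Q : Type*} [Group Q] (θ : Q →* Q) (q : Q) :
    q ∈ stab θ ↔ ∀ k : ℕ, ∃ x, θ^[k] x = q := Iff.rfl

theorem fg_of_map_inj {G G' : Type*} [Group G] [Group G'] (f : G →* G')
    (hf : Function.Injective f) (K : Subgroup G) (h : (K.map f).FG) : K.FG := by
  rw [← Group.fg_iff_subgroup_fg] at h ⊢
  exact Group.fg_of_surjective (f := (K.equivMapOfInjective f hf).symm.toMonoidHom)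
    (K.equivMapOfInjective f hf).symm.surjective

theorem VPoly.subgroupOf {Q : Type*} [Group Q] {M : Subgroup Q} (h : VPoly M) (R : Subgroup Q)
    (hle : M ≤ R) : VPoly (M.subgroupOf R) := by
  obtain ⟨⟨S, hSM, hSfi, hS⟩, hN⟩ := h
  refine ⟨⟨S.subgroupOf R, ?_, ?_, ?_⟩, ?_⟩
  · exact comap_mono hSM
  · rw [relIndex_subgroupOf hle]
    exact hSfi
  · exact Group.isSolvable_of_isSolvable_injective
      (f := (subgroupOfEquivOfLe (hSM.trans hle)).toMonoidHom)
      (subgroupOfEquivOfLe (hSM.trans hle)).injective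
  · intro K hK
    refine fg_of_map_inj R.subtype R.subtype_injective K (hN _ ?_)
    rintro _ ⟨x, hx, rfl⟩
    exact hK hx

theorem fg_preimage {Q : Type*} [Group Q] (M : Subgroup Q) [M.Normal] (hM : M.FG)
    (S : Subgroup (Q ⧸ M)) (hS : S.FG) : (S.comap (QuotientGroup.mk' M)).FG := by
  classical
  obtain ⟨A, hA⟩ := hM
  obtain ⟨B, hB⟩ := hS
  have h1 : Function.Surjective (QuotientGroup.mk' M) := QuotientGroup.mk'_surjective M
  choose g hg using h1
  refine ⟨A ∪ B.image g, ?_⟩
  set T := closure ((A ∪ B.image g : Finset Q) : Set Q) with hT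
  have hMT : M ≤ T := by
    rw [← hA, hT, Finset.coe_union]
    exact closure_mono Set.subset_union_left
  have hmap : T.map (QuotientGroup.mk' M) = S := by
    apply le_antisymm
    · rw [map_le_iff_le_comap, hT, closure_le]
      intro x hx
      rw [Finset.coe_union, Set.mem_union] at hx
      rcases hx with hx | hx
      · have h2 : x ∈ M := by rw [← hA]; exact subset_closure hx
        have h3 : QuotientGroup.mk' M x = 1 := (QuotientGroup.eq_one_iff x).2 h2
        show QuotientGroup.mk' M x ∈ S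
        rw [h3]
        exact S.one_mem
      · rw [Finset.coe_image] at hx
        obtain ⟨b, hb, rfl⟩ := hx
        show QuotientGroup.mk' M (g b) ∈ S
        rw [hg, ← hB]
        exact subset_closure hb
    · rw [← hB, closure_le]
      intro b hb
      refine ⟨g b, subset_closure ?_, hg b⟩
      rw [Finset.coe_union, Finset.coe_image]
      exact Or.inr ⟨b, hb, rfl⟩
  rw [← hmap, comap_map_eq, QuotientGroup.ker_mk', sup_eq_left.2 hMT]

theorem fibP {Q : Type*} [Group Q] [Group.FG Q] (θ : Q →* Q) (hinj : Function.Injective θ)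
    (M : Subgroup Q) [M.Normal] (h : VPoly M) (hM : M.comap θ = M)
    (hs : ∀ q, ∃ y, ∃ m ∈ M, q = θ y * m) (H : Subgroup Q) (h1 : M ≤ H)
    (h2 : ∀ q, (∀ k : ℕ, ∃ x, θ^[k] x = q) → q ∈ H) : H.FiniteIndex := by
  obtain ⟨⟨S, hSM, hSfi, hS⟩, hN⟩ := h
  haveI : (S.subgroupOf M).FiniteIndex := ⟨hSfi⟩
  exact fibV θ hinj M (S.subgroupOf M) (Group.isSolvable_of_isSolvable_injective
      (f := (subgroupOfEquivOfLe hSM).toMonoidHom) (subgroupOfEquivOfLe hSM).injective)
      hN hM hs H h1 h2

/-- **The main theorem.** -/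
theorem main {Q : Type*} [Group Q] (θ : Q →* Q) (hinj : Function.Injective θ)
    (M : Subgroup Q) [M.Normal] (h : VPoly M) (hM : M.comap θ = M)
    (S : Subgroup (Q ⧸ M)) (hS : S.FG) (hfix : S.map (QuotientGroup.map M M θ hM.ge) = S) :
    ((stab θ).map (QuotientGroup.mk' M)).relIndex S ≠ 0 := by
  set π := QuotientGroup.mk' M with hπ
  set R : Subgroup Q := S.comap π with hR
  have hRfg : R.FG := fg_preimage M (h.2 M le_rfl) S hS
  haveI : Group.FG R := (Group.fg_iff_subgroup_fg R).2 hRfg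
  have hMR : M ≤ R := by
    intro x hx
    show π x ∈ S
    have h3 : π x = 1 := (QuotientGroup.eq_one_iff x).2 hx
    rw [h3]
    exact S.one_mem
  have hθR : ∀ x ∈ R, θ x ∈ R := by
    intro x hx
    show π (θ x) ∈ S
    rw [← hfix]
    exact ⟨π x, hx, rfl⟩
  let θR : R →* R := (θ.comp R.subtype).codRestrict R (fun x => hθR x.1 x.2)
  have hθR' : ∀ x : R, (θR x : Q) = θ x := fun _ => rfl
  have hit : ∀ (k : ℕ) (x : R), ((θR^[k] x : R) : Q) = θ^[k] x := by
    intro k
    induction k with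
    | zero => intro x; rfl
    | succ k ih =>
      intro x
      rw [Function.iterate_succ_apply, Function.iterate_succ_apply, ih]
      rfl
  have key := fibP θR (fun x y hxy => Subtype.ext (hinj (congrArg Subtype.val hxy)))
    (M.subgroupOf R) (h.subgroupOf R hMR) (by
      ext x
      rw [mem_comap, mem_subgroupOf, mem_subgroupOf, hθR']
      constructor
      · intro hx
        rw [← hM]
        exact hx
      · intro hx
        rw [← hM] at hx
        exact hx) (by
      intro q
      have h3 : π q.1 ∈ S := q.2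
      rw [← hfix] at h3
      obtain ⟨s, hs, hsq⟩ := h3
      obtain ⟨y, rfl⟩ := QuotientGroup.mk'_surjective M s
      have h4 : π (θ y) = π q.1 := hsq
      have h5 : (θ y)⁻¹ * q.1 ∈ M := QuotientGroup.eq.1 h4
      refine ⟨⟨y, hs⟩, ⟨(θ y)⁻¹ * q.1, hMR h5⟩, h5, ?_⟩
      apply Subtype.ext
      show q.1 = θ y * ((θ y)⁻¹ * q.1)
      group)
    ((M ⊔ stab θ).subgroupOf R) (comap_mono le_sup_left) (by
      intro q hq
      rw [mem_subgroupOf]
      refine (le_sup_right : stab θ ≤ _) ?_
      intro k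
      obtain ⟨x, hx⟩ := hq k
      exact ⟨x.1, by rw [← hit, hx]⟩)
  have h6 : (M ⊔ stab θ).relIndex R ≠ 0 := key.index_ne_zero
  have h7 : (stab θ).map π = (M ⊔ stab θ).map π := by
    rw [Subgroup.map_sup]
    have : M.map π = ⊥ := by rw [Subgroup.map_eq_bot_iff, hπ, QuotientGroup.ker_mk']
    rw [this, bot_sup_eq]
  have h8 : S = R.map π := by
    rw [hR, map_comap_eq_self_of_surjective (QuotientGroup.mk'_surjective M)]
  rw [h7, h8, relIndex_map_map, QuotientGroup.ker_mk']
  have h9 : R ⊔ M = R := sup_eq_left.2 hMR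
  have h10 : M ⊔ stab θ ⊔ M = M ⊔ stab θ := sup_eq_left.2 le_sup_left
  rw [h9, h10]
  exact h6

theorem main_cap {Q : Type*} [Group Q] (θ : Q →* Q) (hinj : Function.Injective θ)
    (hcap : ∀ q : Q, (∀ k : ℕ, q ∈ Set.range (θ^[k])) → q = 1)
    (M : Subgroup Q) [M.Normal] (h : VPoly M) (hM : M.comap θ = M)
    (S : Subgroup (Q ⧸ M)) (hS : S.FG) (hfix : S.map (QuotientGroup.map M M θ hM.ge) = S) :
    Finite S := by
  have h1 := main θ hinj M h hM S hS hfix
  have h2 : stab θ = ⊥ := by
    rw [eq_bot_iff]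
    intro q hq
    exact hcap q hq
  rw [h2, Subgroup.map_bot, relIndex_bot_left] at h1
  exact Nat.finite_of_card_ne_zero h1

end NFB
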