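import Pool.Agent.NFB.D3

/-!
# The final form
-/

namespace NFB

open Subgroup EssMap

theorem vpoly_of_fi {Q : Type*} [Group Q] {M R : Subgroup Q} (hMR : M ≤ R)
    (hfi : M.relIndex R ≠ 0) (hM : VPoly M) : VPoly R := by
  obtain ⟨⟨S, hSM, hSfi, hS⟩, hN⟩ := hM
  refine ⟨⟨S, hSM.trans hMR, ?_, hS⟩, ?_⟩
  · rw [← relIndex_mul_relIndex S M R hSM hMR]
    exact Nat.mul_ne_zero hSfi hfi
  · intro K hK
    refine fg_of_fi (M ⊓ K) K inf_le_right ?_ (hN _ inf_le_left)
    rw [inf_relIndex_right]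
    intro h
    exact hfi (relIndex_eq_zero_of_le_right hK h)

/-- The statement with subgroups of `Q`. -/
theorem rform {Q : Type*} [Group Q] (θ : Q →* Q) (hinj : Function.Injective θ)
    (hcap : ∀ q : Q, (∀ k : ℕ, q ∈ Set.range (θ^[k])) → q = 1)
    (M : Subgroup Q) [M.Normal] (h : VPoly M) (hM : M.comap θ = M)
    (R : Subgroup Q) (hR : R.FG) (hMR : M ≤ R) (hfix : R.map θ ⊔ M = R) :
    M.relIndex R ≠ 0 ∧ VPoly R := by
  set π := QuotientGroup.mk' M with hπ
  have hMπ : M.map π = ⊥ := by rw [Subgroup.map_eq_bot_iff, hπ, QuotientGroup.ker_mk']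
  have h1 : (R.map π).FG := fg_map π hR
  have h2 : (R.map π).map (QuotientGroup.map M M θ hM.ge) = R.map π := by
    have h3 : (R.map π).map (QuotientGroup.map M M θ hM.ge) = (R.map θ).map π := by
      rw [Subgroup.map_map, Subgroup.map_map]
      rfl
    rw [h3]
    conv_rhs => rw [← hfix]
    rw [Subgroup.map_sup, hMπ, sup_bot_eq]
  have h4 : Finite (R.map π) := main_cap θ hinj hcap M h hM (R.map π) h1 h2
  have h5 : M.relIndex R ≠ 0 := by
    have h6 : π.ker.relIndex R = Nat.card (R.map π) := relIndex_ker R π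
    rw [hπ, QuotientGroup.ker_mk'] at h6
    rw [h6]
    exact Nat.card_pos.ne'
  exact ⟨h5, vpoly_of_fi hMR h5 h⟩

end NFB
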