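import Pool.Agent.NFB.Last

/-!
# Towers
-/

namespace NFB

open Subgroup EssMap

theorem vp_of_top {G : Type*} [Group G] (h : VPoly (⊤ : Subgroup G)) : VP G :=
  VP.of_injective (Subgroup.topEquiv (G := G)).symm.toMonoidHom
    (Subgroup.topEquiv (G := G)).symm.injective ((vpoly_iff _).1 h)

/-- the restriction of `φ` to an invariant subgroup -/
def res {Q : Type*} [Group Q] (φ : Q →* Q) (P : Subgroup Q) (h : ∀ x ∈ P, φ x ∈ P) : P →* P :=
  (φ.comp P.subtype).codRestrict P (fun x => h x.1 x.2)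

theorem res_iter {Q : Type*} [Group Q] (φ : Q →* Q) (P : Subgroup Q) (h : ∀ x ∈ P, φ x ∈ P)
    (k : ℕ) : ∀ x : P, (((res φ P h)^[k] x : P) : Q) = φ^[k] x := by
  induction k with
  | zero => intro x; rfl
  | succ k ih =>
    intro x
    rw [Function.iterate_succ_apply, Function.iterate_succ_apply, ih]
    rfl

theorem res_inj {Q : Type*} [Group Q] {φ : Q →* Q} (hinj : Function.Injective φ) (P : Subgroup Q)
    (h : ∀ x ∈ P, φ x ∈ P) : Function.Injective (res φ P h) :=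
  fun _ _ hxy => Subtype.ext (hinj (congrArg Subtype.val hxy))

theorem res_cap {Q : Type*} [Group Q] {φ : Q →* Q}
    (hcap : ∀ q : Q, (∀ k : ℕ, q ∈ Set.range (φ^[k])) → q = 1) (P : Subgroup Q)
    (h : ∀ x ∈ P, φ x ∈ P) (q : P) (hq : ∀ k : ℕ, q ∈ Set.range ((res φ P h)^[k])) : q = 1 := by
  apply Subtype.ext
  refine hcap q.1 (fun k => ?_)
  obtain ⟨x, hx⟩ := hq k
  exact ⟨x.1, by rw [← res_iter φ P h, hx]⟩

theorem res_comap {Q : Type*} [Group Q] {φ : Q →* Q} (P : Subgroup Q)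
    (h : ∀ x ∈ P, φ x ∈ P) {L : Subgroup Q} (hL : L.comap φ = L) :
    (L.subgroupOf P).comap (res φ P h) = L.subgroupOf P := by
  ext x
  rw [mem_comap, mem_subgroupOf, mem_subgroupOf]
  constructor
  · intro hx
    rw [← hL]
    exact hx
  · intro hx
    rw [← hL] at hx
    exact hx

theorem step_poly {Q : Type} [Group Q] (L P : Subgroup Q) (hL : VPoly L) (hLP : L ≤ P)
    [hn : (L.subgroupOf P).Normal] (h : VPoly (⊤ : Subgroup (P ⧸ L.subgroupOf P))) : VPoly P :=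
  (vpoly_iff P).2 (VP.ext (L.subgroupOf P) ((vpoly_iff _).1 (hL.subgroupOf P hLP)) (vp_of_top h))

theorem step_coh {Q : Type} [Group Q] (φ : Q →* Q) (hinj : Function.Injective φ)
    (hfin : φ.range.FiniteIndex)
    (hcap : ∀ q : Q, (∀ k : ℕ, q ∈ Set.range (φ^[k])) → q = 1)
    (L P : Subgroup Q) (hL : VPoly L) (hLs : L.comap φ = L) (hLP : L ≤ P) (hP : P.FG)
    (hPs : P.comap φ = P) [hn : (L.subgroupOf P).Normal]
    (h : ∀ ψ : P ⧸ L.subgroupOf P →* P ⧸ L.subgroupOf P, Function.Injective ψ →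
        ψ.range.FiniteIndex → Function.Surjective ψ) : L.relIndex P ≠ 0 ∧ VPoly P := by
  have hθ : ∀ x ∈ P, φ x ∈ P := fun x hx => by rw [← hPs] at hx; exact hx
  have hr : (res φ P hθ).range = φ.range.subgroupOf P := by
    ext x
    constructor
    · rintro ⟨y, rfl⟩
      exact ⟨y.1, rfl⟩
    · rintro ⟨y, hy⟩
      have h1 : φ y = x.1 := hy
      have h2 : y ∈ P := by
        rw [← hPs, mem_comap, h1]
        exact x.2
      exact ⟨⟨y, h2⟩, Subtype.ext h1⟩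
  have hfin' : (res φ P hθ).range.FiniteIndex := by
    rw [hr]
    infer_instance
  have h3 := last2 (res φ P hθ) (res_inj hinj P hθ) hfin' (res_cap hcap P hθ) (L.subgroupOf P)
    (Or.inl ⟨res_comap P hθ hLs, Or.inl (hL.subgroupOf P hLP)⟩)
    ((Group.fg_iff_subgroup_fg P).2 hP) h
  exact ⟨h3.1.index_ne_zero, (vpoly_iff P).2 (vp_of_top h3.2)⟩

theorem step_onto {Q : Type} [Group Q] (φ : Q →* Q) (hinj : Function.Injective φ)
    (hcap : ∀ q : Q, (∀ k : ℕ, q ∈ Set.range (φ^[k])) → q = 1)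
    (L P : Subgroup Q) (hL : VPoly L) (hLs : L.comap φ = L) (hLP : L ≤ P) (hP : P.FG)
    [hn : (L.subgroupOf P).Normal] (h : P.map φ ⊔ L = P) :
    P.comap φ = P ∧ L.relIndex P ≠ 0 ∧ VPoly P := by
  have hPm : P.map φ ≤ P := by
    conv_rhs => rw [← h]
    exact le_sup_left
  have hθ : ∀ x ∈ P, φ x ∈ P := fun x hx => hPm ⟨x, hx, rfl⟩
  have h1 : (⊤ : Subgroup P).map (res φ P hθ) = (P.map φ).subgroupOf P := by
    ext x
    constructor
    · rintro ⟨y, -, rfl⟩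
      exact ⟨y.1, y.2, rfl⟩
    · rintro ⟨y, hy, hyx⟩
      exact ⟨⟨y, hy⟩, trivial, Subtype.ext hyx⟩
  have h2 : (⊤ : Subgroup P).map (res φ P hθ) ⊔ L.subgroupOf P = ⊤ := by
    rw [h1, ← subgroupOf_sup hPm hLP, h, subgroupOf_self]
  have hfg : Group.FG P := (Group.fg_iff_subgroup_fg P).2 hP
  obtain ⟨h3, h4⟩ := rform (res φ P hθ) (res_inj hinj P hθ) (res_cap hcap P hθ) (L.subgroupOf P)
    (hL.subgroupOf P hLP) (res_comap P hθ hLs) ⊤ hfg.1 le_top h2
  rw [relIndex_top_right] at h3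
  refine ⟨le_antisymm ?_ hθ, h3, (vpoly_iff P).2 (vp_of_top h4)⟩
  intro x hx
  have hx' : φ x ∈ P := hx
  have h5 : (⟨φ x, hx'⟩ : P) ∈ (⊤ : Subgroup P).map (res φ P hθ) ⊔ L.subgroupOf P := by
    rw [h2]
    trivial
  obtain ⟨u, hu, v, hv, huv⟩ := mem_sup_of_normal_right.1 h5
  obtain ⟨y, -, rfl⟩ := hu
  have h6 : φ y.1 * v.1 = φ x := congrArg Subtype.val huv
  have h7 : φ (y.1⁻¹ * x) ∈ L := by
    rw [map_mul, map_inv, ← h6, inv_mul_cancel_left]
    exact hv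
  have h8 : y.1⁻¹ * x ∈ L := by
    rw [← hLs]
    exact h7
  have h9 : x = y.1 * (y.1⁻¹ * x) := by group
  rw [h9]
  exact P.mul_mem y.2 (hLP h8)

end NFB
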