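import Pool.Agent.NFB.Vp1

/-!
# Extensions of virtually polycyclic groups
-/

set_option autoImplicit false

open EssMap
open scoped commutatorElement

namespace NFB

theorem exists_charV {N : Type*} [Group N] [Group.FG N] (S : Subgroup N) (hS : S.FiniteIndex) :
    ∃ A : Subgroup N, A.Normal ∧ A.FiniteIndex ∧ (∀ θ : N →* N, ∀ x ∈ A, θ x ∈ A) ∧ A ≤ S := by
  have : Finite (N ⧸ S.normalCore) := inferInstance
  have := finite_hom N (N ⧸ S.normalCore)
  refine ⟨⨅ h : N →* N ⧸ S.normalCore, h.ker, ?_, ?_, ?_, ?_⟩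
  · exact Subgroup.normal_iInf_normal fun h => inferInstance
  · apply Subgroup.finiteIndex_iInf
    intro h
    infer_instance
  · intro θ x hx
    rw [Subgroup.mem_iInf] at hx ⊢
    intro h
    exact hx (h.comp θ)
  · intro x hx
    have h1 := (Subgroup.mem_iInf.1 hx) (QuotientGroup.mk' S.normalCore)
    rw [QuotientGroup.ker_mk'] at h1
    exact Subgroup.normalCore_le S h1

/-- ROW VEX -/
theorem VP.ext {G : Type*} [Group G] (N : Subgroup G) [N.Normal] (h1 : VP N) (h2 : VP (G ⧸ N)) :
    VP G := by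
  obtain ⟨⟨S, hS, hsol⟩, hfg⟩ := h1
  obtain ⟨⟨T, hT, hTsol⟩, hfg2⟩ := h2
  have hfgN : ∀ H : Subgroup G, H ≤ N → H.FG := by
    intro H hH
    have h3 : (H.subgroupOf N).map N.subtype = H := by
      rw [Subgroup.subgroupOf_map_subtype, inf_eq_left.2 hH]
    rw [← h3]
    exact fg_map _ (hfg _)
  have hNfg : Group.FG N := ⟨hfg ⊤⟩
  obtain ⟨A, hAn, hAf, hAc, hAS⟩ := exists_charV S hS
  -- the image of `A`
  have hA'n : (A.map N.subtype).Normal := by
    refine ⟨?_⟩
    rintro _ ⟨x, hx, rfl⟩ g
    have hx' : (MulAut.conjNormal g x : N) ∈ A :=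
      hAc (MulEquiv.toMonoidHom (MulAut.conjNormal (H := N) g)) x hx
    exact ⟨MulAut.conjNormal g x, hx', MulAut.conjNormal_apply g x⟩
  obtain ⟨A', hA'⟩ : ∃ A' : Subgroup G, A' = A.map N.subtype := ⟨_, rfl⟩
  rw [← hA'] at hA'n
  have hA'N : A' ≤ N := by
    rw [hA']
    rintro _ ⟨x, -, rfl⟩
    exact x.2
  have hA'sol : Group.IsSolvable A' := by
    have h3 : Group.IsSolvable A :=
      Group.isSolvable_of_isSolvable_injective (Subgroup.inclusion_injective hAS)
    rw [hA']
    exact Group.isSolvable_of_surjective (N.subtype.subgroupMap_surjective A)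
  have hA'mem : ∀ x : N, (x : G) ∈ A' ↔ x ∈ A := by
    intro x
    rw [hA']
    constructor
    · rintro ⟨y, hy, hyx⟩
      have : y = x := Subtype.ext hyx
      rw [← this]
      exact hy
    · intro hx
      exact ⟨x, hx, rfl⟩
  -- the finite normal subgroup
  have hfinA : Finite (N ⧸ A) := Subgroup.finite_quotient_of_finiteIndex
  have hfin : Finite (N.map (QuotientGroup.mk' A')) := by
    have h3 : ∀ z : N.map (QuotientGroup.mk' A'), ∃ x : N, QuotientGroup.mk' A' (x : G) = z := by
      rintro ⟨_, x, hx, rfl⟩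
      exact ⟨⟨x, hx⟩, rfl⟩
    choose f hf using h3
    refine Finite.of_injective (fun z => (f z : N ⧸ A)) ?_
    intro z w h
    have h4 : (f z)⁻¹ * f w ∈ A := QuotientGroup.eq.1 h
    rw [← hA'mem] at h4
    apply Subtype.ext
    rw [← hf z, ← hf w]
    exact QuotientGroup.eq.2 h4
  have hNn : (N.map (QuotientGroup.mk' A')).Normal :=
    Subgroup.Normal.map inferInstance _ (QuotientGroup.mk'_surjective A')
  let F : G →* MulAut (N.map (QuotientGroup.mk' A')) :=
    (MulAut.conjNormal (H := N.map (QuotientGroup.mk' A'))).comp (QuotientGroup.mk' A')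
  have hMf : Finite (MulAut (N.map (QuotientGroup.mk' A'))) :=
    Finite.of_injective (fun e : MulAut (N.map (QuotientGroup.mk' A')) =>
      (e : N.map (QuotientGroup.mk' A') → N.map (QuotientGroup.mk' A'))) DFunLike.coe_injective
  have hG0 : F.ker.FiniteIndex := inferInstance
  have hF : ∀ x ∈ F.ker, ∀ n ∈ N, ⁅x, n⁆ ∈ A' := by
    intro x hx n hn
    have h3 : F x = 1 := hx
    have h4 := congrArg (fun e : MulAut (N.map (QuotientGroup.mk' A')) =>
      ((e ⟨QuotientGroup.mk' A' n, n, hn, rfl⟩ : N.map (QuotientGroup.mk' A')) : G ⧸ A')) h3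
    have h5 : ((x * n * x⁻¹ : G) : G ⧸ A') = (n : G ⧸ A') := h4
    rw [commutatorElement_def]
    have h6 := QuotientGroup.eq.1 h5.symm
    have h7 := Subgroup.Normal.conj_mem hA'n _ h6 n
    have h8 : n * (n⁻¹ * (x * n * x⁻¹)) * n⁻¹ = x * n * x⁻¹ * n⁻¹ := by group
    rw [h8] at h7
    exact h7
  have hTc : (T.comap (QuotientGroup.mk' N)).FiniteIndex := by
    refine ⟨?_⟩
    rw [Subgroup.index_comap_of_surjective _ (QuotientGroup.mk'_surjective N)]
    exact hT.index_ne_zero
  refine ⟨⟨F.ker ⊓ T.comap (QuotientGroup.mk' N), inferInstance, ?_⟩, ?_⟩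
  · obtain ⟨L, hL⟩ : ∃ L : Subgroup G, L = F.ker ⊓ T.comap (QuotientGroup.mk' N) := ⟨_, rfl⟩
    rw [← hL]
    have hLm : ∀ x ∈ L, x ∈ F.ker ∧ ((x : G) : G ⧸ N) ∈ T := by
      intro x hx
      rw [hL] at hx
      exact hx
    -- the kernel
    have hK : Group.IsSolvable (N.subgroupOf L) := by
      have h3 : ∀ x y : N.subgroupOf L, ((⁅x, y⁆ : N.subgroupOf L) : L) ∈ A'.subgroupOf L := by
        intro x y
        exact hF _ (hLm _ (x : L).2).1 _ y.2
      rw [Group.isSolvable_iff_subgroup_quotient ((A'.subgroupOf L).subgroupOf (N.subgroupOf L))]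
      constructor
      · let g : (A'.subgroupOf L).subgroupOf (N.subgroupOf L) →* A' :=
          { toFun := fun z => ⟨(((z : N.subgroupOf L) : L) : G), z.2⟩
            map_one' := rfl
            map_mul' := fun _ _ => rfl }
        have hg : Function.Injective g := by
          intro x y hxy
          have h2 := congrArg (fun z : A' => (z : G)) hxy
          exact Subtype.ext (Subtype.ext (Subtype.ext h2))
        exact Group.isSolvable_of_isSolvable_injective hg
      · apply Group.isSolvable_of_comm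
        intro a b
        obtain ⟨x, rfl⟩ := QuotientGroup.mk_surjective a
        obtain ⟨y, rfl⟩ := QuotientGroup.mk_surjective b
        rw [← QuotientGroup.mk_mul, ← QuotientGroup.mk_mul, QuotientGroup.eq]
        have h4 := h3 y⁻¹ x⁻¹
        have h5 : (x * y)⁻¹ * (y * x) = ⁅y⁻¹, x⁻¹⁆ := by
          rw [commutatorElement_def]
          group
        rw [h5]
        exact h4
    have h3 : Group.IsSolvable T := hTsol
    let g : L →* T :=
      { toFun := fun z => ⟨((z : G) : G ⧸ N), (hLm _ z.2).2⟩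
        map_one' := rfl
        map_mul' := fun _ _ => rfl }
    refine Group.isSolvable_of_ker_le_range (N.subgroupOf L).subtype g ?_
    intro z hz
    rw [Subgroup.range_subtype]
    have h4 : ((z : G) : G ⧸ N) = 1 := congrArg Subtype.val hz
    exact (QuotientGroup.eq_one_iff (z : G)).1 h4
  · intro K
    exact fg_of_extension N hfgN hfg2 K

end NFB
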