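import Pool.Agent.NFB.Fib

/-!
# Virtually solvable normal subgroups
-/

namespace NFB

open Subgroup

theorem solvable_sup {G : Type*} [Group G] (R M : Subgroup G) [R.Normal] [M.Normal]
    (hR : Group.IsSolvable R) (hM : Group.IsSolvable M) : Group.IsSolvable (R ⊔ M : Subgroup G) := by
  set f : G →* G ⧸ R := QuotientGroup.mk' R with hf
  have h1 : (R ⊔ M).map f = M.map f := by
    rw [Subgroup.map_sup]
    have : R.map f = ⊥ := by
      rw [Subgroup.map_eq_bot_iff, hf, QuotientGroup.ker_mk']
    rw [this, bot_sup_eq]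
  have h2 : Group.IsSolvable ((R ⊔ M).map f) := by
    rw [h1]
    exact Group.isSolvable_of_surjective (f := f.subgroupMap M) (f.subgroupMap_surjective M)
  refine Group.isSolvable_of_ker_le_range (inclusion (le_sup_left : R ≤ R ⊔ M))
    (f.subgroupMap (R ⊔ M)) ?_
  intro x hx
  rw [MonoidHom.mem_ker] at hx
  have h3 : f (x : G) = 1 := congrArg Subtype.val hx
  have h4 : (x : G) ∈ R := (QuotientGroup.eq_one_iff _).1 h3
  exact ⟨⟨x, h4⟩, Subtype.ext rfl⟩

/-- The solvable radical of a virtually solvable group. -/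
theorem exists_radical {N : Type*} [Group N] (S : Subgroup N) [S.FiniteIndex]
    (hS : Group.IsSolvable S) :
    ∃ R : Subgroup N, R.Characteristic ∧ R.FiniteIndex ∧ Group.IsSolvable R ∧
      ∀ M : Subgroup N, M.Normal → Group.IsSolvable M → M ≤ R := by
  classical
  set P : ℕ → Prop := fun n => ∃ R : Subgroup N, R.Normal ∧ Group.IsSolvable R ∧ R.index = n ∧ n ≠ 0
    with hP
  have hex : ∃ n, P n := by
    have h1 : S.normalCore.FiniteIndex := inferInstance
    refine ⟨S.normalCore.index, S.normalCore, inferInstance, ?_, rfl, h1.index_ne_zero⟩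
    exact Group.isSolvable_of_isSolvable_injective (inclusion_injective S.normalCore_le)
  obtain ⟨R, hRn, hRs, hRi, hR0⟩ := Nat.find_spec hex
  have key : ∀ M : Subgroup N, M.Normal → Group.IsSolvable M → M ≤ R := by
    intro M hMn hMs
    have h1 := solvable_sup R M hRs hMs
    have h2 : (R ⊔ M).index ∣ R.index := index_dvd_of_le le_sup_left
    have h3 : (R ⊔ M).index ≠ 0 := by
      intro h
      rw [h, zero_dvd_iff] at h2
      rw [h2] at hRi
      exact hR0 hRi.symm
    have h4 : Nat.find hex ≤ (R ⊔ M).index :=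
      Nat.find_min' hex ⟨R ⊔ M, inferInstance, h1, rfl, h3⟩
    have h5 : (R ⊔ M).index = R.index := by
      apply le_antisymm
      · exact Nat.le_of_dvd (Nat.pos_of_ne_zero (by rw [hRi]; exact hR0)) h2
      · rw [hRi]
        exact h4
    have h6 := relIndex_mul_index (le_sup_left : R ≤ R ⊔ M)
    rw [h5] at h6
    have h7 : R.relIndex (R ⊔ M) = 1 := by
      have h8 : 0 < R.index := Nat.pos_of_ne_zero (by rw [hRi]; exact hR0)
      exact Nat.eq_of_mul_eq_mul_right h8 (by rw [h6, one_mul])
    rw [relIndex_eq_one] at h7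
    exact le_sup_right.trans h7
  refine ⟨R, ?_, ⟨by rw [hRi]; exact hR0⟩, hRs, key⟩
  rw [characteristic_iff_map_le]
  intro φ
  apply key
  · exact hRn.map φ.toMonoidHom φ.surjective
  · exact Group.isSolvable_of_surjective (f := φ.toMonoidHom.subgroupMap R)
      (φ.toMonoidHom.subgroupMap_surjective R)

theorem fibV {Q : Type*} [Group Q] [Group.FG Q] (θ : Q →* Q) (hinj : Function.Injective θ)
    (M : Subgroup Q) [M.Normal] (S : Subgroup M) [S.FiniteIndex] (hS : Group.IsSolvable S)
    (hN : ∀ K ≤ M, K.FG) (hM : M.comap θ = M)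
    (hs : ∀ q, ∃ y, ∃ m ∈ M, q = θ y * m) (H : Subgroup Q) (h1 : M ≤ H)
    (h2 : ∀ q, (∀ k : ℕ, ∃ x, θ^[k] x = q) → q ∈ H) : H.FiniteIndex := by
  obtain ⟨R0, hRc, hRfi, hRs, hRmax⟩ := exists_radical S hS
  set R : Subgroup Q := R0.map M.subtype with hR
  have hRn : R.Normal := inferInstance
  have hRM : R ≤ M := map_subtype_le R0
  have hRR : R.subgroupOf M = R0 := by
    rw [hR, subgroupOf, comap_map_eq_self_of_injective M.subtype_injective]
  have hRs' : Group.IsSolvable R :=
    Group.isSolvable_of_surjective (f := M.subtype.subgroupMap R0)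
      (M.subtype.subgroupMap_surjective R0)
  have hRfi' : R.relIndex M ≠ 0 := by
    have : R.relIndex M = R0.index := by
      rw [relIndex, hRR]
    rw [this]
    exact hRfi.index_ne_zero
  have hcM : R.comap θ ≤ M := by
    rw [← hM]
    exact comap_mono hRM
  have hMM : M.map θ ≤ M := by
    rw [map_le_iff_le_comap, hM]
  have ha : R.comap θ ≤ R := by
    have h3 : Group.IsSolvable (R.comap θ) := by
      let f : R.comap θ →* R := (θ.comp (R.comap θ).subtype).codRestrict R (fun x => x.2)
      refine Group.isSolvable_of_isSolvable_injective (f := f) ?_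
      intro x y hxy
      have h4 : θ x.1 = θ y.1 := congrArg Subtype.val hxy
      exact Subtype.ext (hinj h4)
    have h5 : Group.IsSolvable ((R.comap θ).subgroupOf M) :=
      Group.isSolvable_of_isSolvable_injective
        (f := (subgroupOfEquivOfLe hcM).toMonoidHom) (subgroupOfEquivOfLe hcM).injective
    have h6 : (R.comap θ).subgroupOf M ≤ R0 := hRmax _ inferInstance h5
    intro x hx
    have h7 : (⟨x, hcM hx⟩ : M) ∈ R0 := h6 hx
    exact ⟨_, h7, rfl⟩
  have hb1 : (R.comap θ).relIndex M = R.relIndex (M.map θ) := relIndex_comap R θ M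
  have hb2 : R.relIndex (M.map θ) ≠ 0 := fun h => hRfi' (relIndex_eq_zero_of_le_right hMM h)
  have hb3 : R.relIndex (M.map θ) ≤ R.relIndex M := relIndex_le_of_le_right hMM hRfi'
  have hb4 : (R.comap θ).relIndex R * R.relIndex M = (R.comap θ).relIndex M :=
    relIndex_mul_relIndex _ _ _ ha hRM
  have hb5 : (R.comap θ).relIndex R = 1 := by
    rw [hb1] at hb4
    have h6 : 0 < R.relIndex M := Nat.pos_of_ne_zero hRfi'
    have h7 : 0 < R.relIndex (M.map θ) := Nat.pos_of_ne_zero hb2
    have h8 : 0 < (R.comap θ).relIndex R := by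
      refine Nat.pos_of_ne_zero (fun h => ?_)
      rw [h, zero_mul] at hb4
      omega
    nlinarith
  have hb : R.comap θ = R := le_antisymm ha (relIndex_eq_one.1 hb5)
  have hb6 : R.relIndex (M.map θ) = R.relIndex M := by
    rw [← hb1, ← hb4, hb5, one_mul]
  have hc1 : M ≤ M.map θ ⊔ R := by
    have h6 : R.relIndex (M.map θ ⊔ R) * (M.map θ ⊔ R).relIndex M = R.relIndex M :=
      relIndex_mul_relIndex _ _ _ le_sup_right (sup_le hMM hRM)
    rw [relIndex_sup_right, hb6] at h6
    have h7 : (M.map θ ⊔ R).relIndex M = 1 :=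
      Nat.eq_of_mul_eq_mul_left (Nat.pos_of_ne_zero hRfi') (by rw [h6, mul_one])
    exact relIndex_eq_one.1 h7
  refine fib θ hinj R hRs' (fun K hK => hN K (hK.trans hRM)) hb ?_ H (hRM.trans h1) h2
  intro q
  obtain ⟨y, m, hm, hq⟩ := hs q
  obtain ⟨u, hu, r, hr, hur⟩ := mem_sup_of_normal_right.1 (hc1 hm)
  obtain ⟨m', hm', rfl⟩ := hu
  refine ⟨y * m', r, hr, ?_⟩
  rw [hq, ← hur, map_mul, mul_assoc]

end NFB
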