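import Pool.Agent.NFB.Defs
import Pool.Agent.NFB.Fib
import Pool.Agent.EssMap.Grp
import Pool.Agent.EssMap.Nil

/-!
# Virtually polycyclic groups: transport
-/

set_option autoImplicit false

open EssMap

namespace NFB

/-- a group with a solvable subgroup of finite index all of whose subgroups are f.g. -/
def VP (G : Type*) [Group G] : Prop :=
  (∃ S : Subgroup G, S.FiniteIndex ∧ Group.IsSolvable S) ∧ ∀ K : Subgroup G, K.FG

theorem fg_of_map_injV {G H : Type*} [Group G] [Group H] (f : G →* H)
    (hf : Function.Injective f) (K : Subgroup G) (h : (K.map f).FG) : K.FG := by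
  have h1 : (K.map f).comap f = K := Subgroup.comap_map_eq_self_of_injective hf K
  rw [← Group.fg_iff_subgroup_fg] at h ⊢
  exact Group.fg_of_surjective (f := (K.equivMapOfInjective f hf).symm.toMonoidHom)
    (K.equivMapOfInjective f hf).symm.surjective

theorem VP.of_injective {G H : Type*} [Group G] [Group H] (f : G →* H)
    (hf : Function.Injective f) (h : VP H) : VP G := by
  obtain ⟨⟨S, hS, hsol⟩, hfg⟩ := h
  refine ⟨⟨S.comap f, ⟨?_⟩, ?_⟩, fun K => fg_of_map_injV f hf K (hfg _)⟩
  · rw [Subgroup.index_comap]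
    exact (inferInstance : (S.subgroupOf f.range).FiniteIndex).index_ne_zero
  have h1 : Function.Injective (f.subgroupComap S) := by
    intro x y hxy
    exact Subtype.ext (hf (congrArg Subtype.val hxy))
  exact Group.isSolvable_of_isSolvable_injective h1

theorem VP.of_surjective {G H : Type*} [Group G] [Group H] (f : G →* H)
    (hf : Function.Surjective f) (h : VP G) : VP H := by
  obtain ⟨⟨S, hS, hsol⟩, hfg⟩ := h
  refine ⟨⟨S.map f, ⟨?_⟩, ?_⟩, fun K => ?_⟩
  · intro h0
    have h1 := Subgroup.index_map_dvd S hf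
    rw [h0] at h1
    exact hS.index_ne_zero (Nat.eq_zero_of_zero_dvd h1)
  · exact Group.isSolvable_of_surjective (f.subgroupMap_surjective S)
  · rw [← Subgroup.map_comap_eq_self_of_surjective hf K]
    exact fg_map _ (hfg _)

theorem vpoly_iff {Q : Type*} [Group Q] (M : Subgroup Q) : VPoly M ↔ VP M := by
  constructor
  · rintro ⟨⟨S, hSM, hS, hsol⟩, hfg⟩
    refine ⟨⟨S.subgroupOf M, ⟨hS⟩, ?_⟩, fun K => ?_⟩
    · have h1 : Function.Injective (M.subtype.subgroupComap S) := by
        intro x y hxy
        have h2 := congrArg (fun z : S => (z : Q)) hxy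
        exact Subtype.ext (Subtype.ext h2)
      exact Group.isSolvable_of_isSolvable_injective h1
    · apply fg_of_map_injV M.subtype M.subtype_injective
      apply hfg
      rintro _ ⟨x, -, rfl⟩
      exact x.2
  · rintro ⟨⟨S, hS, hsol⟩, hfg⟩
    refine ⟨⟨S.map M.subtype, ?_, ?_, ?_⟩, fun K hK => ?_⟩
    · rintro _ ⟨x, -, rfl⟩
      exact x.2
    · have h1 : (S.map M.subtype).subgroupOf M = S :=
        Subgroup.comap_map_eq_self_of_injective M.subtype_injective S
      show ((S.map M.subtype).subgroupOf M).index ≠ 0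
      rw [h1]
      exact hS.index_ne_zero
    · exact Group.isSolvable_of_surjective (M.subtype.subgroupMap_surjective S)
    · have h1 : (K.subgroupOf M).map M.subtype = K := by
        rw [Subgroup.subgroupOf_map_subtype, inf_eq_left.2 hK]
      rw [← h1]
      exact fg_map _ (hfg _)

theorem VPoly.mono {Q : Type*} [Group Q] {K M : Subgroup Q} (hM : VPoly M) (h : K ≤ M) :
    VPoly K :=
  (vpoly_iff K).2 (VP.of_injective (Subgroup.inclusion h) (Subgroup.inclusion_injective h)
    ((vpoly_iff M).1 hM))

theorem VPoly.map {Q Q' : Type*} [Group Q] [Group Q'] {M : Subgroup Q} (hM : VPoly M)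
    (f : Q →* Q') : VPoly (M.map f) :=
  (vpoly_iff _).2 (VP.of_surjective (f.subgroupMap M) (f.subgroupMap_surjective M)
    ((vpoly_iff M).1 hM))

theorem VPoly.comap {Q Q' : Type*} [Group Q] [Group Q'] {M : Subgroup Q'} (hM : VPoly M)
    (f : Q →* Q') (hf : Function.Injective f) : VPoly (M.comap f) := by
  refine (vpoly_iff _).2 (VP.of_injective (f.subgroupComap M) ?_ ((vpoly_iff M).1 hM))
  intro x y hxy
  exact Subtype.ext (hf (congrArg Subtype.val hxy))

end NFB
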