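import Pool.Agent.NFB.Vex

/-!
# Finitely many normal virtually polycyclic subgroups (helper2)
-/

set_option autoImplicit false

open EssMap

namespace NFB

theorem VP.sup {G : Type*} [Group G] (A B : Subgroup G) [B.Normal] (hA : VP A) (hB : VP B) :
    VP (A ⊔ B : Subgroup G) := by
  have hN : (B.subgroupOf (A ⊔ B)).Normal := inferInstance
  refine VP.ext (B.subgroupOf (A ⊔ B)) ?_ ?_
  · exact VP.of_injective (Subgroup.subgroupOfEquivOfLe (le_sup_right : B ≤ A ⊔ B)).toMonoidHom
      (Subgroup.subgroupOfEquivOfLe (le_sup_right : B ≤ A ⊔ B)).injective hB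
  · refine VP.of_surjective ((QuotientGroup.mk' (B.subgroupOf (A ⊔ B))).comp
      (Subgroup.inclusion (le_sup_left : A ≤ A ⊔ B))) ?_ hA
    intro x
    induction x using QuotientGroup.induction_on with
    | H x =>
      obtain ⟨a, ha, b, hb, h3⟩ := Subgroup.mem_sup_of_normal_right.1 x.2
      refine ⟨⟨a, ha⟩, ?_⟩
      rw [MonoidHom.comp_apply]
      refine QuotientGroup.eq.2 ?_
      rw [Subgroup.mem_subgroupOf]
      have : (((Subgroup.inclusion (le_sup_left : A ≤ A ⊔ B) ⟨a, ha⟩)⁻¹ * x : ↥(A ⊔ B)) : G) = b := by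
        push_cast
        rw [← h3]
        exact inv_mul_cancel_left a b
      rw [this]
      exact hb

theorem VP.bot {G : Type*} [Group G] : VP (⊥ : Subgroup G) := by
  refine ⟨⟨⊤, inferInstance, ?_⟩, fun K => ?_⟩
  · infer_instance
  · rw [← Group.fg_iff_subgroup_fg]
    infer_instance

/-- ROW VSU -/
theorem VP.iSup {G ι : Type*} [Group G] [Finite ι] (K : ι → Subgroup G) (hn : ∀ i, (K i).Normal)
    (h : ∀ i, VP (K i)) : VP (⨆ i, K i : Subgroup G) := by
  classical
  cases nonempty_fintype ι
  have key : ∀ s : Finset ι, (s.sup K).Normal ∧ VP (s.sup K : Subgroup G) := by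
    intro s
    induction s using Finset.induction_on with
    | empty =>
      rw [Finset.sup_empty]
      exact ⟨inferInstance, VP.bot⟩
    | insert a s ha ih =>
      rw [Finset.sup_insert]
      have h1 := hn a
      have h2 := ih.1
      exact ⟨inferInstance, VP.sup _ _ (h a) ih.2⟩
  have h1 := (key Finset.univ).2
  rwa [Finset.sup_univ_eq_iSup] at h1

end NFB
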